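import Pool.Agent.Shared.SubspaceAlg.Units

/-! Elementary arithmetic of the degenerate case. -/

open Filter Real Polynomial

namespace Pool.Agent.Lib.MP_6aa000_nt

open Pool.Agent.Shared.SubspaceAlg

/-- a smooth number is a perfect power times a bounded number -/
theorem exists_pow_mul (S : Finset ℕ) (e : ℕ) (he : 0 < e) : ∃ T : Finset ℕ, (∀ s ∈ T, 0 < s) ∧
    ∀ n ∈ Nat.factoredNumbers S, ∃ s ∈ T, ∃ v ∈ Nat.factoredNumbers S, n = s * v ^ e := by
  have hP : ∏ p ∈ S.filter Nat.Prime, p ^ e ≠ 0 :=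
    Finset.prod_ne_zero_iff.2 fun p hp => pow_ne_zero _ (Finset.mem_filter.1 hp).2.ne_zero
  refine ⟨(∏ p ∈ S.filter Nat.Prime, p ^ e).divisors, fun s hs => Nat.pos_of_mem_divisors hs, ?_⟩
  intro n
  induction n using Nat.strong_induction_on with
  | _ n ih =>
    intro hn
    by_cases h : ∃ p, p.Prime ∧ p ^ e ∣ n
    · obtain ⟨p, hp, n', rfl⟩ := h
      have hn' : n' ∈ Nat.factoredNumbers S := Nat.mem_factoredNumbers_of_dvd hn (Dvd.intro_left _ rfl)
      have hpS : p ∈ Nat.factoredNumbers S :=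
        Nat.mem_factoredNumbers_of_dvd hn ((dvd_pow_self p he.ne').mul_right _)
      have hlt : n' < p ^ e * n' :=
        lt_mul_of_one_lt_left (Nat.pos_of_ne_zero hn'.1) (Nat.one_lt_pow he.ne' hp.one_lt)
      obtain ⟨s, hs, v, hv, rfl⟩ := ih n' hlt hn'
      exact ⟨s, hs, p * v, Nat.mul_mem_factoredNumbers hpS hv, by ring⟩
    · refine ⟨n, Nat.mem_divisors.2 ⟨?_, hP⟩, 1, Nat.mem_factoredNumbers'.2 fun p hp h1 =>
        absurd (Nat.dvd_one.1 h1) hp.ne_one, by simp⟩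
      refine (Nat.dvd_iff_prime_pow_dvd_dvd _ _).2 fun p k hp hk => ?_
      rcases Nat.eq_zero_or_pos k with rfl | hk0
      · simp
      have h1 : p ∈ S := Nat.mem_factoredNumbers'.1 hn p hp ((dvd_pow_self p hk0.ne').trans hk)
      have h2 : k ≤ e := by
        by_contra h3
        exact h ⟨p, hp, (pow_dvd_pow p (not_le.1 h3).le).trans hk⟩
      exact (pow_dvd_pow p h2).trans
        (Finset.dvd_prod_of_mem (fun p => p ^ e) (Finset.mem_filter.2 ⟨h1, hp⟩))

/-- two smooth numbers with difference one are bounded -/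
theorem not_consecutive (S : Finset ℕ) (σ : ℤ) (hσ : σ = 1 ∨ σ = -1) (U : Ultrafilter ℕ)
    (n W : ℕ → ℕ) (hn : Tendsto n U atTop)
    (h : ∀ᶠ k in U, n k ∈ Nat.factoredNumbers S ∧ W k ∈ Nat.factoredNumbers S ∧
      (W k : ℤ) = n k + σ) : False := by
  have hq : Tendsto (fun k => log (n k)) U atTop :=
    tendsto_log_atTop.comp (tendsto_natCast_atTop_atTop.comp hn)
  obtain ⟨ζ, hζ, hz⟩ := subspace_units (ι := Fin 2) S !![1, -1; 0, 1]
    (by
      intro i j
      fin_cases i <;> fin_cases j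
      · exact isAlgebraic_one
      · exact isAlgebraic_one.neg
      · exact isAlgebraic_zero
      · exact isAlgebraic_one)
    (by simp) U (fun k => log (n k)) hq 2 (1 / 2) (by norm_num)
    (fun k => ![(W k : ℤ), (n k : ℤ)]) (fun k => ![W k, n k]) (fun k => ![-log (W k), 0]) (by
      filter_upwards [h, hn.eventually_ge_atTop 3] with k hk h3
      obtain ⟨h1, h2, h4⟩ := hk
      have hn3 : (3 : ℝ) ≤ n k := by exact_mod_cast h3
      have hW : (W k : ℝ) = n k + σ := by exact_mod_cast h4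
      have hs : (σ : ℝ) = 1 ∨ (σ : ℝ) = -1 := by rcases hσ with rfl | rfl <;> simp
      have hW2 : (2 : ℝ) ≤ W k := by rcases hs with e | e <;> linarith
      have l0 : 0 ≤ log (n k) := log_nonneg (by linarith)
      have l1 : 0 ≤ log (W k) := log_nonneg (by linarith)
      have l2 : log (W k) ≤ 2 * log (n k) := by
        have : log (W k) ≤ log ((n k : ℝ) ^ 2) :=
          log_le_log (by linarith) (by rcases hs with e | e <;> nlinarith)
        rwa [log_pow] at this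
      have l3 : log (n k) ≤ 2 * log (W k) := by
        have : log (n k) ≤ log ((W k : ℝ) ^ 2) :=
          log_le_log (by linarith) (by rcases hs with e | e <;> nlinarith)
        rwa [log_pow] at this
      refine ⟨Fin.forall_fin_two.2 ⟨⟨h2, dvd_rfl, l2, ?_, ?_⟩, ⟨h1, dvd_rfl, ?_, ?_, ?_⟩⟩, ?_⟩
      · simpa [abs_of_nonneg l1] using l2
      · have e1 : (W k : ℝ) * exp (-log (W k)) = 1 := by
          rw [exp_neg, exp_log (by linarith)]
          field_simp
        have e2 : |(W k : ℝ) + -(n k : ℝ)| = 1 := by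
          rw [hW]
          rcases hs with e | e <;> simp [e]
        simp [Fin.sum_univ_two, e1, e2]
      · simp only [Matrix.cons_val_one, Matrix.cons_val_zero]
        linarith
      · simpa using l0
      · simp [Fin.sum_univ_two]
      · simp only [Fin.sum_univ_two, Matrix.cons_val_one, Matrix.cons_val_zero]
        linarith)
  have hs : (σ : ℚ) ≠ 0 := by rcases hσ with rfl | rfl <;> simp
  have h2 : ∀ᶠ k in U, (ζ 0 + ζ 1) * (n k : ℚ) = -(ζ 0 * σ) := by
    filter_upwards [h, hz] with k hk h1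
    have hW : (W k : ℚ) = n k + σ := by exact_mod_cast hk.2.2
    simp only [Fin.sum_univ_two, Matrix.cons_val_one, Matrix.cons_val_zero, Int.cast_natCast] at h1
    rw [hW] at h1
    linarith
  by_cases h0 : ζ 0 + ζ 1 = 0
  · obtain ⟨k, hk⟩ := h2.exists
    rw [h0, zero_mul, zero_eq_neg, mul_eq_zero] at hk
    have h3 := hk.resolve_right hs
    refine hζ (funext (Fin.forall_fin_two.2 ⟨h3, ?_⟩))
    simpa [h3] using h0
  · have h3 : Tendsto (fun k => (n k : ℚ)) U atTop := tendsto_natCast_atTop_atTop.comp hn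
    obtain ⟨k, hk, hk'⟩ := (h2.and (h3.eventually_gt_atTop (-(ζ 0 * σ) / (ζ 0 + ζ 1)))).exists
    rw [← hk, mul_div_cancel_left₀ _ h0] at hk'
    exact lt_irrefl _ hk'

theorem arith_den (P : ℚ[X]) : ∃ c : ℕ, c ≠ 0 ∧ ∀ v : ℕ, ∃ z : ℤ, c * P.eval (v : ℚ) = z := by
  induction P using Polynomial.induction_on' with
  | add p q hp hq =>
    obtain ⟨c, hc, h⟩ := hp
    obtain ⟨d, hd, h'⟩ := hq
    refine ⟨c * d, mul_ne_zero hc hd, fun v => ?_⟩
    obtain ⟨z, hz⟩ := h v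
    obtain ⟨z', hz'⟩ := h' v
    refine ⟨d * z + c * z', ?_⟩
    rw [eval_add]
    push_cast
    rw [← hz, ← hz']
    ring
  | monomial k a =>
    refine ⟨a.den, a.den_nz, fun v => ⟨a.num * v ^ k, ?_⟩⟩
    rw [eval_monomial, ← mul_assoc, Rat.den_mul_eq_num]
    push_cast
    ring

theorem arith_nat {p c : ℕ} [Fact p.Prime] (h : ¬p ∣ c) : padicNorm p (c : ℚ) = 1 :=
  (padicNorm.nat_eq_one_iff c).2 h

theorem arith_list (l : List ℚ[X]) : ∃ S₁ : Finset ℕ, ∀ (p : ℕ) [Fact p.Prime], p ∉ S₁ →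
    ∀ P ∈ l, ∀ v : ℕ, padicNorm p (P.eval (v : ℚ)) ≤ 1 := by
  induction l with
  | nil => exact ⟨∅, fun p _ _ P hP => absurd hP List.not_mem_nil⟩
  | cons Q l ih =>
    obtain ⟨S₁, h₁⟩ := ih
    obtain ⟨c, hc, h⟩ := arith_den Q
    refine ⟨S₁ ∪ c.primeFactors, fun p hp hpS P hP v => ?_⟩
    rw [Finset.mem_union, not_or] at hpS
    rcases List.mem_cons.1 hP with rfl | hP
    · obtain ⟨z, hz⟩ := h v
      have h1 : ¬p ∣ c := fun h2 => hpS.2 (Nat.mem_primeFactors.2 ⟨hp.out, h2, hc⟩)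
      have h2 := padicNorm.of_int (p := p) z
      rwa [← hz, padicNorm.mul, arith_nat h1, one_mul] at h2
    · exact h₁ p hpS.1 P hP v

theorem arith_unit {p : ℕ} [Fact p.Prime] {a b c d : ℚ} (h : a * b + c * d = 1)
    (ha : padicNorm p a ≤ 1) (hb : padicNorm p b < 1) (hc : padicNorm p c ≤ 1) :
    1 ≤ padicNorm p d := by
  have h1 := padicNorm.nonarchimedean (p := p) (q := a * b) (r := c * d)
  rw [h, padicNorm.one, padicNorm.mul, padicNorm.mul, le_max_iff] at h1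
  have b0 := padicNorm.nonneg (p := p) b
  have d0 := padicNorm.nonneg (p := p) d
  rcases h1 with h1 | h1
  · nlinarith
  · nlinarith

/-- on a rational curve the number `x ^ 2 * Y ^ 3` has its primes in a fixed finite set -/
theorem arith (S : Finset ℕ) (s e : ℕ) (hs : 0 < s) (he : 0 < e) (σ : ℤ) (hσ : σ = 1 ∨ σ = -1)
    (A B : ℚ[X]) (hB : B ≠ 0) : ∃ S' : Finset ℕ, S ⊆ S' ∧ ∀ v x Y M1 M2 : ℕ,
      M1 ∈ Nat.factoredNumbers S → M2 ∈ Nat.factoredNumbers S → 0 < x → 0 < Y →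
      (s * v ^ e : ℤ) = x ^ 2 * Y ^ 3 + σ → B.eval (v : ℚ) ≠ 0 →
      B.eval (v : ℚ) * (x * Y * M2) = A.eval (v : ℚ) * M1 →
      x ^ 2 * Y ^ 3 ∈ Nat.factoredNumbers S' := by
  classical
  obtain ⟨G, A', B', rfl, rfl, a1, b1, h1⟩ :
      ∃ G A' B' : ℚ[X], A = G * A' ∧ B = G * B' ∧ IsCoprime A' B' := by
    have hg : EuclideanDomain.gcd A B ≠ 0 := fun h => hB (EuclideanDomain.gcd_eq_zero_iff.1 h).2
    obtain ⟨A', hA'⟩ := EuclideanDomain.gcd_dvd_left A B
    obtain ⟨B', hB'⟩ := EuclideanDomain.gcd_dvd_right A B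
    refine ⟨_, A', B', hA', hB', EuclideanDomain.gcdA A B, EuclideanDomain.gcdB A B, ?_⟩
    refine mul_left_cancel₀ hg ?_
    have := EuclideanDomain.gcd_eq_gcd_ab A B
    linear_combination -this - EuclideanDomain.gcdA A B * hA' - EuclideanDomain.gcdB A B * hB'
  have hs0 : (s : ℚ) ≠ 0 := by exact_mod_cast hs.ne'
  have he0 : (e : ℚ) ≠ 0 := by exact_mod_cast he.ne'
  have hσ0 : (σ : ℚ) ≠ 0 := by rcases hσ with rfl | rfl <;> simp
  have hsep : (C (s : ℚ) * X ^ e - C (σ : ℚ)).Separable := by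
    have h3 := (separable_X_pow_sub_C ((s : ℚ)⁻¹ * σ) he0 (mul_ne_zero (inv_ne_zero hs0) hσ0))
    have h4 : C (s : ℚ) * X ^ e - C (σ : ℚ) = C (s : ℚ) * (X ^ e - C ((s : ℚ)⁻¹ * σ)) := by
      rw [mul_sub, ← C_mul, mul_inv_cancel_left₀ hs0]
    rw [h4]
    exact Separable.unit_mul (isUnit_C.2 (IsUnit.mk0 _ hs0)) h3
  obtain ⟨g, f1, A1, a2, b2, hf, hA1, h2⟩ : ∃ g f1 A1 a2 b2 : ℚ[X],
      C (s : ℚ) * X ^ e - C (σ : ℚ) = g * f1 ∧ A' = g * A1 ∧ b2 * A' + a2 * f1 = 1 := by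
    obtain ⟨f, hf⟩ : ∃ f, f = C (s : ℚ) * X ^ e - C (σ : ℚ) := ⟨_, rfl⟩
    rw [← hf] at hsep ⊢
    obtain ⟨f1, hf1⟩ := EuclideanDomain.gcd_dvd_left f A'
    obtain ⟨A1, hA1⟩ := EuclideanDomain.gcd_dvd_right f A'
    have hab := EuclideanDomain.gcd_eq_gcd_ab f A'
    obtain ⟨g, hg⟩ : ∃ g, g = EuclideanDomain.gcd f A' := ⟨_, rfl⟩
    rw [← hg] at hf1 hA1 hab
    obtain ⟨u, w, huw⟩ := Separable.isCoprime (hf1 ▸ hsep : (g * f1).Separable)
    refine ⟨g, f1, A1, w + u * EuclideanDomain.gcdA f A' * g, u * EuclideanDomain.gcdB f A',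
      hf1, hA1, ?_⟩
    linear_combination huw - u * hab - u * EuclideanDomain.gcdA f A' * hf1
  obtain ⟨S₁, hS₁⟩ := arith_list [a1, b1, B', a2, b2, f1, A1]
  refine ⟨S ∪ S₁, Finset.subset_union_left, ?_⟩
  intro v x Y M1 M2 hM1 hM2 hx hY hv hBv hE
  refine Nat.mem_factoredNumbers'.2 fun p hp hpn => ?_
  by_contra hpS
  rw [Finset.mem_union, not_or] at hpS
  have := Fact.mk hp
  have hl := fun P hP => hS₁ p hpS.2 P hP v
  have m1 := arith_nat (p := p) fun h => hpS.1 (Nat.mem_factoredNumbers'.1 hM1 p hp h)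
  have m2 := arith_nat (p := p) fun h => hpS.1 (Nat.mem_factoredNumbers'.1 hM2 p hp h)
  rw [eval_mul] at hBv
  have hE' : B'.eval (v : ℚ) * ((x * Y : ℕ) * (M2 : ℚ)) = A'.eval (v : ℚ) * M1 := by
    refine mul_left_cancel₀ (left_ne_zero_of_mul hBv) ?_
    rw [eval_mul, eval_mul] at hE
    push_cast
    linear_combination hE
  have hT : p ∣ x * Y := by
    rcases (Nat.Prime.dvd_mul hp).1 hpn with h | h
    · exact (hp.dvd_of_dvd_pow h).mul_right _
    · exact (hp.dvd_of_dvd_pow h).mul_left _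
  obtain ⟨t, ht⟩ : ∃ t, t = padicNorm p ((x * Y : ℕ) : ℚ) := ⟨_, rfl⟩
  have t1 : t < 1 := by rw [ht]; exact (padicNorm.nat_lt_one_iff _).2 hT
  have t0 : 0 < t := by
    rw [ht]
    exact lt_of_le_of_ne (padicNorm.nonneg _)
      (padicNorm.nonzero (by exact_mod_cast (Nat.mul_pos hx hY).ne')).symm
  have e1 : padicNorm p (B'.eval (v : ℚ)) * t = padicNorm p (A'.eval (v : ℚ)) := by
    have := congrArg (padicNorm p) hE'
    rwa [padicNorm.mul, padicNorm.mul, padicNorm.mul, m1, m2, mul_one, mul_one, ← ht] at this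
  have hB1 := hl B' (by simp)
  have hA : padicNorm p (A'.eval (v : ℚ)) < 1 := by nlinarith
  have u1 := arith_unit (p := p) (by simpa using congrArg (eval (v : ℚ)) h1) (hl a1 (by simp)) hA
    (hl b1 (by simp))
  have u2 := arith_unit (p := p) (by simpa using congrArg (eval (v : ℚ)) h2) (hl b2 (by simp)) hA
    (hl a2 (by simp))
  have e2 : padicNorm p (A'.eval (v : ℚ)) ≤ padicNorm p (g.eval (v : ℚ)) := by
    rw [hA1, eval_mul, padicNorm.mul]
    exact mul_le_of_le_one_right (padicNorm.nonneg _) (hl A1 (by simp))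
  have e3 : padicNorm p (g.eval (v : ℚ)) * padicNorm p (f1.eval (v : ℚ)) ≤ t * t := by
    have h3 : g.eval (v : ℚ) * f1.eval (v : ℚ) = (x * Y : ℕ) * (x * Y : ℕ) * (Y : ℚ) := by
      have h4 : (s : ℚ) * (v : ℚ) ^ e = (x : ℚ) ^ 2 * (Y : ℚ) ^ 3 + σ := by exact_mod_cast hv
      rw [← eval_mul, ← hf]
      simp only [eval_sub, eval_mul, eval_C, eval_pow, eval_X]
      push_cast
      linear_combination h4
    rw [← padicNorm.mul, h3, padicNorm.mul, padicNorm.mul, ← ht]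
    exact mul_le_of_le_one_right (by positivity) (padicNorm.of_nat Y)
  have g0 := padicNorm.nonneg (p := p) (g.eval (v : ℚ))
  have e4 : padicNorm p (g.eval (v : ℚ)) ≤ t * t := (le_mul_of_one_le_right g0 u2).trans e3
  have e5 : t ≤ padicNorm p (A'.eval (v : ℚ)) := by nlinarith
  nlinarith

end Pool.Agent.Lib.MP_6aa000_nt
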