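import Mathlib

/-! Puiseux approximation of an algebraic function along an ultrafilter. -/

open Filter Polynomial ArchimedeanClass

namespace Pool.Agent.Lib.MP_6aa000_nt

namespace Pui

variable {R : Type} [Field R] [LinearOrder R] [IsStrictOrderedRing R]

/-- finite elements -/
def Fi (x : R) : Prop := 0 ≤ mk x
/-- infinitesimal elements -/
def In (x : R) : Prop := 0 < mk x
/-- finite, not infinitesimal elements -/
def Un (x : R) : Prop := mk x = 0

variable {x y : R}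

theorem In.fi (h : In x) : Fi x := le_of_lt h
theorem Un.fi (h : Un x) : Fi x := ge_of_eq h
theorem Un.not_in (h : Un x) : ¬ In x := fun h' => (ne_of_gt h') h
theorem Fi.un (h : Fi x) (h' : ¬ In x) : Un x := le_antisymm (not_lt.mp h') h
theorem in_zero : In (0 : R) := by simp [In, lt_top_iff_ne_top]
theorem un_one : Un (1 : R) := by simp [Un]
theorem Un.ne (h : Un x) : x ≠ 0 := fun e => h.not_in (e ▸ in_zero)
theorem Fi.add (hx : Fi x) (hy : Fi y) : Fi (x + y) := (le_min hx hy).trans (min_le_mk_add x y)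
theorem In.add (hx : In x) (hy : In y) : In (x + y) :=
  (lt_min hx hy).trans_le (min_le_mk_add x y)
theorem Fi.neg (hx : Fi x) : Fi (-x) := by rwa [Fi, mk_neg]
theorem In.neg (hx : In x) : In (-x) := by rwa [In, mk_neg]
theorem Fi.sub (hx : Fi x) (hy : Fi y) : Fi (x - y) := by
  rw [sub_eq_add_neg]; exact hx.add hy.neg
theorem In.sub (hx : In x) (hy : In y) : In (x - y) := by
  rw [sub_eq_add_neg]; exact hx.add hy.neg
theorem Fi.mul (hx : Fi x) (hy : Fi y) : Fi (x * y) := by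
  rw [Fi, mk_mul]; exact add_nonneg hx hy
theorem In.mul (hx : In x) (hy : Fi y) : In (x * y) := by
  rw [In, mk_mul]; exact add_pos_of_pos_of_nonneg hx hy
theorem Fi.mul_in (hx : Fi x) (hy : In y) : In (x * y) := by rw [mul_comm]; exact hy.mul hx
theorem Un.mul (hx : Un x) (hy : Un y) : Un (x * y) := by
  rw [Un, mk_mul, show mk x = 0 from hx, show mk y = 0 from hy, add_zero]
theorem Un.inv (hx : Un x) : Un x⁻¹ := by
  rw [Un, mk_inv, show mk x = 0 from hx, neg_zero]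
theorem Un.div (hx : Un x) (hy : Un y) : Un (x / y) := by
  rw [div_eq_mul_inv]; exact hx.mul hy.inv
theorem Fi.pow (hx : Fi x) (n : ℕ) : Fi (x ^ n) := by
  induction n with
  | zero => simpa using un_one.fi
  | succ n ih => rw [pow_succ]; exact ih.mul hx
theorem Un.pow (hx : Un x) (n : ℕ) : Un (x ^ n) := by
  induction n with
  | zero => simpa using un_one
  | succ n ih => rw [pow_succ]; exact ih.mul hx
theorem In.pow (hx : In x) {n : ℕ} (hn : n ≠ 0) : In (x ^ n) := by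
  obtain ⟨n, rfl⟩ := Nat.exists_eq_succ_of_ne_zero hn
  rw [pow_succ]; exact (hx.fi.pow n).mul_in hx
theorem Fi.sum {ι : Type} {s : Finset ι} {g : ι → R} (h : ∀ i ∈ s, Fi (g i)) :
    Fi (∑ i ∈ s, g i) :=
  Finset.sum_induction g Fi (fun _ _ => Fi.add) in_zero.fi h
theorem In.sum {ι : Type} {s : Finset ι} {g : ι → R} (h : ∀ i ∈ s, In (g i)) :
    In (∑ i ∈ s, g i) :=
  Finset.sum_induction g In (fun _ _ => In.add) in_zero h
theorem Un.add (hx : Un x) (hy : In y) : Un (x + y) :=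
  (hx.fi.add hy.fi).un fun h => hx.not_in (by simpa using h.sub hy)
theorem fi_of_abs_le (h : |x| ≤ |y|) (hy : Fi y) : Fi x := hy.trans (mk_le_mk_of_abs h)
theorem in_of_abs_le (h : |x| ≤ |y|) (hy : In y) : In x := hy.trans_le (mk_le_mk_of_abs h)
theorem in_inv (hx : ¬ Fi x) : In x⁻¹ := by
  by_contra h
  rcases le_total |x| 1 with h1 | h1
  · exact hx (fi_of_abs_le (by simpa using h1) un_one.fi)
  · have : Fi x⁻¹ :=
      fi_of_abs_le (by simpa [abs_inv] using inv_le_one_of_one_le₀ h1) un_one.fi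
    exact hx (by simpa using (this.un h).inv.fi)
theorem un_of_pow {n : ℕ} (hn : n ≠ 0) (h : Un (x ^ n)) : Un x := by
  by_cases h1 : Fi x
  · exact h1.un fun h2 => h.not_in (h2.pow hn)
  · exact absurd (by simpa using (in_inv h1).pow hn) h.inv.not_in
theorem fi_div (h : mk y ≤ mk x) (hy : y ≠ 0) : Fi (x / y) := by
  obtain ⟨n, hn⟩ := mk_le_mk.mp h
  have : |x / y| ≤ |(n : R)| := by
    rw [abs_div, div_le_iff₀ (abs_pos.mpr hy), Nat.abs_cast]; simpa using hn
  exact (mk_natCast_nonneg n).trans (mk_le_mk_of_abs this)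

section W

variable {W : R} (hW : ¬ Fi W)
include hW

theorem W_ne : W ≠ 0 := fun e => hW (e ▸ in_zero.fi)

theorem in_zpow {k : ℤ} (hk : k < 0) : In (W ^ k) := by
  obtain ⟨n, rfl⟩ := Int.exists_eq_neg_ofNat hk.le
  rw [zpow_neg, zpow_natCast, ← inv_pow]
  exact (in_inv hW).pow (by omega)

theorem fi_zpow {k : ℤ} (hk : k ≤ 0) : Fi (W ^ k) := by
  rcases hk.eq_or_lt with rfl | hk
  · simpa using un_one.fi
  · exact (in_zpow hW hk).fi

theorem le_of_fi_zpow {k : ℤ} (h : Fi (W ^ k)) : k ≤ 0 := by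
  by_contra hk
  have := h.mul_in (in_zpow hW (k := -k) (by omega))
  rw [← zpow_add₀ (W_ne hW), add_neg_cancel, zpow_zero] at this
  exact un_one.not_in this

theorem lt_of_in_zpow {k : ℤ} (h : In (W ^ k)) : k < 0 :=
  lt_of_le_of_ne (le_of_fi_zpow hW h.fi) fun e => un_one.not_in (by simpa [e] using h)

end W

/-- the real algebraic numbers -/
abbrev AR : Type := ↥(algebraicClosure ℚ ℝ)

theorem alg_of_alg {c : ℝ} (h : IsAlgebraic AR c) : IsAlgebraic ℚ c :=
  @IsAlgebraic.restrictScalars ℚ AR ℝ _ _ _ _ _ _ _ _ (algebraicClosure.isAlgebraic ℚ ℝ) c h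

variable [Algebra AR R]

/-- `x` is asymptotic to an algebraic multiple of `W ^ k` -/
def Ld (W x : R) (k : ℤ) : Prop := ∃ c : AR, c ≠ 0 ∧ In (x / W ^ k - algebraMap AR R c)

variable {f : ℝ →+*o R} (hf : ∀ c : AR, algebraMap AR R c = f c)
include hf

theorem un_alg {c : AR} (hc : c ≠ 0) : Un (algebraMap AR R c) := by
  rw [hf]
  exact mk_map_of_archimedean' f (by simpa using hc)

theorem fi_alg (c : AR) : Fi (algebraMap AR R c) := by
  by_cases hc : c = 0
  · simpa [hc] using in_zero.fi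
  · exact (un_alg hf hc).fi

theorem Ld.un {W : R} {k : ℤ} (h : Ld W x k) : Un (x / W ^ k) := by
  obtain ⟨c, hc, h⟩ := h
  simpa using (un_alg hf hc).add h

theorem Ld.div {W : R} (hW : ¬ Fi W) {k l : ℤ} (hx : Ld W x k) (hy : Ld W y l) :
    Ld W (x / y) (k - l) := by
  have h1 := hy.un hf
  obtain ⟨c, hc, h⟩ := hx
  obtain ⟨c', hc', h'⟩ := hy
  have h2 := un_alg hf hc'
  have h3 : y ≠ 0 := fun e => h1.ne (by simp [e])
  have h4 := W_ne hW
  refine ⟨c / c', div_ne_zero hc hc', ?_⟩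
  have := (h.mul h1.inv.fi).sub (h'.mul ((fi_alg hf c).mul (h1.mul h2).inv.fi))
  convert this using 1
  have h5 := h2.ne
  rw [map_div₀, zpow_sub₀ h4]
  field_simp
  ring

theorem ld_poly {W : R} (hW : ¬ Fi W) {N : ℕ} (hN : N ≠ 0) {P : AR[X]} (hP : P ≠ 0) :
    Ld W (aeval (W ^ N) P) (N * P.natDegree) := by
  have h0 := W_ne hW
  refine ⟨P.leadingCoeff, leadingCoeff_ne_zero.mpr hP, ?_⟩
  rw [aeval_eq_sum_range, Finset.sum_range_succ, add_div, Finset.sum_div]
  have e : P.coeff P.natDegree • (W ^ N) ^ P.natDegree / W ^ ((N : ℤ) * P.natDegree) =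
      algebraMap AR R P.leadingCoeff := by
    rw [Algebra.smul_def, ← pow_mul, ← Nat.cast_mul, zpow_natCast, mul_div_assoc,
      div_self (pow_ne_zero _ h0), mul_one, leadingCoeff]
  rw [e, add_sub_cancel_right]
  refine In.sum fun i hi => ?_
  rw [Algebra.smul_def, ← pow_mul, ← zpow_natCast, mul_div_assoc, ← zpow_sub₀ h0]
  refine (fi_alg hf _).mul_in (in_zpow hW ?_)
  have h1 : N * i < N * P.natDegree :=
    Nat.mul_lt_mul_of_pos_left (Finset.mem_range.mp hi) (Nat.pos_of_ne_zero hN)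
  omega

theorem ld_adjoin {W : R} (hW : ¬ Fi W) {N : ℕ} (hN : N ≠ 0)
    (hx : x ∈ IntermediateField.adjoin AR {W ^ N}) (h0 : x ≠ 0) : ∃ k : ℤ, Ld W x (N * k) := by
  obtain ⟨P, Q, rfl⟩ := (IntermediateField.mem_adjoin_simple_iff AR x).mp hx
  have hP : P ≠ 0 := fun e => h0 (by simp [e])
  have hQ : Q ≠ 0 := fun e => h0 (by simp [e])
  exact ⟨P.natDegree - Q.natDegree, by
    rw [mul_sub]; exact (ld_poly hf hW hN hP).div hf hW (ld_poly hf hW hN hQ)⟩

theorem un_of_rel {W : R} (hW : ¬ Fi W) {D : ℕ} (a : ℕ → R)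
    (ha : ∀ i, a i ≠ 0 → ∃ k : ℤ, Ld W (a i) (D.factorial * k)) (hne : ∃ i ≤ D, a i ≠ 0)
    (h0 : x ≠ 0) (h : ∑ i ∈ Finset.range (D + 1), a i * x ^ i = 0) : ∃ k : ℤ, Un (x / W ^ k) := by
  classical
  have hW0 := W_ne hW
  have key : ∀ i j, i < j → j ≤ D → a i ≠ 0 → a j ≠ 0 → Un (a j * x ^ j / (a i * x ^ i)) →
      ∃ k : ℤ, Un (x / W ^ k) := by
    intro i j hij hj hi0 hj0 hu
    obtain ⟨k, hk⟩ := ha i hi0
    obtain ⟨l, hl⟩ := ha j hj0
    obtain ⟨n, rfl⟩ := Nat.exists_eq_add_of_lt hij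
    obtain ⟨m, hm⟩ : n + 1 ∣ D.factorial := Nat.dvd_factorial (by omega) (by omega)
    refine ⟨m * (k - l), un_of_pow (n := n + 1) (by omega) ?_⟩
    convert (hu.mul (hk.un hf)).div (hl.un hf) using 1
    have e : W ^ ((D.factorial : ℤ) * k) =
        (W ^ ((m : ℤ) * (k - l))) ^ (n + 1) * W ^ ((D.factorial : ℤ) * l) := by
      rw [← zpow_natCast, ← zpow_mul, ← zpow_add₀ hW0, hm]
      congr 1
      push_cast
      ring
    rw [e, div_pow]
    field_simp
    ring
  obtain ⟨i1, hi1, hi1'⟩ := hne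
  obtain ⟨i, hi, hmin⟩ := Finset.exists_min_image ((Finset.range (D + 1)).filter fun i => a i ≠ 0)
    (fun i => mk (a i * x ^ i)) ⟨i1, by simp [hi1', hi1]⟩
  simp only [Finset.mem_filter, Finset.mem_range, Nat.lt_succ_iff] at hi hmin
  have hi0 : a i * x ^ i ≠ 0 := mul_ne_zero hi.2 (pow_ne_zero _ h0)
  by_contra hcon
  have h1 : In (∑ j ∈ (Finset.range (D + 1)).erase i, a j * x ^ j / (a i * x ^ i)) := by
    refine In.sum fun j hj => ?_
    simp only [Finset.mem_erase, Finset.mem_range, Nat.lt_succ_iff] at hj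
    by_cases hj0 : a j = 0
    · simpa [hj0] using in_zero
    by_contra hin
    have hu := (fi_div (hmin j ⟨hj.2, hj0⟩) hi0).un hin
    rcases lt_or_gt_of_ne hj.1 with hlt | hlt
    · exact hcon (key j i hlt hi.1 hj0 hi.2 (by simpa using hu.inv))
    · exact hcon (key i j hlt hj.2 hi.2 hj0 hu)
  rw [← Finset.add_sum_erase _ _ (Finset.mem_range.mpr (Nat.lt_succ_of_le hi.1))] at h
  rw [← Finset.sum_div, ← neg_eq_of_add_eq_zero_right h, neg_div, div_self hi0] at h1
  exact un_one.not_in (by simpa using h1.neg)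

theorem ld_of_rel {W : R} (hW : ¬ Fi W) {D : ℕ} (a : ℕ → R)
    (ha : ∀ i, a i ≠ 0 → ∃ k : ℤ, Ld W (a i) (D.factorial * k)) (hne : ∃ i ≤ D, a i ≠ 0)
    (h0 : x ≠ 0) (h : ∑ i ∈ Finset.range (D + 1), a i * x ^ i = 0) : ∃ k : ℤ, Ld W x k := by
  classical
  have hW0 := W_ne hW
  obtain ⟨k, hk⟩ := un_of_rel hf hW a ha hne h0 h
  set ψ := x / W ^ k with hψ
  set c0 := stdPart ψ with hc0
  have hc00 : c0 ≠ 0 := fun e => stdPart_eq_zero.mp e hk
  have hin : In (ψ - f c0) := mk_sub_stdPart_pos f hk.fi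
  choose! l c hc hl using ha
  obtain ⟨i1, hi1, hi1'⟩ := hne
  obtain ⟨i, hi, hmax⟩ := Finset.exists_max_image ((Finset.range (D + 1)).filter fun i => a i ≠ 0)
    (fun i => (D.factorial : ℤ) * l i + k * i) ⟨i1, by simp [hi1', hi1]⟩
  simp only [Finset.mem_filter, Finset.mem_range, Nat.lt_succ_iff] at hi hmax
  set κ : ℤ := D.factorial * l i + k * i with hκ
  let c' : ℕ → AR := fun j => if a j ≠ 0 ∧ (D.factorial : ℤ) * l j + k * j = κ then c j else 0
  have hb : ∀ j ≤ D, In (a j * (W ^ k) ^ j / W ^ κ - algebraMap AR R (c' j)) := by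
    intro j hj
    by_cases hj0 : a j = 0
    · simpa [c', hj0] using in_zero
    have e : a j * (W ^ k) ^ j / W ^ κ = a j / W ^ ((D.factorial : ℤ) * l j) *
        W ^ ((D.factorial : ℤ) * l j + k * j - κ) := by
      rw [zpow_sub₀ hW0, zpow_add₀ hW0 (_ * l j), zpow_mul W k, zpow_natCast]
      field_simp
    rcases (hmax j ⟨hj, hj0⟩).eq_or_lt with h1 | h1
    · rw [e, h1, sub_self, zpow_zero, mul_one]
      simpa [c', hj0, h1] using hl j hj0
    · rw [e]
      have := (Ld.un hf ⟨c j, hc j hj0, hl j hj0⟩).fi.mul_in (in_zpow hW (sub_neg.mpr h1))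
      simpa [c', h1.ne] using this
  have hfc : Fi (f c0) := mk_map_nonneg_of_archimedean f c0
  have hpw : ∀ j : ℕ, In (ψ ^ j - f c0 ^ j) := fun j => by
    rw [← Commute.geom_sum₂_mul (Commute.all _ _)]
    exact (Fi.sum fun i _ => (hk.fi.pow _).mul (hfc.pow _)).mul_in hin
  have h1 : In (f (∑ j ∈ Finset.range (D + 1), (c' j : ℝ) * c0 ^ j)) := by
    have e : f (∑ j ∈ Finset.range (D + 1), (c' j : ℝ) * c0 ^ j) =
        -∑ j ∈ Finset.range (D + 1), ((a j * (W ^ k) ^ j / W ^ κ - algebraMap AR R (c' j)) * ψ ^ j +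
          algebraMap AR R (c' j) * (ψ ^ j - f c0 ^ j)) := by
      have e1 : ∑ j ∈ Finset.range (D + 1), a j * (W ^ k) ^ j / W ^ κ * ψ ^ j = 0 := by
        rw [← zero_div (W ^ κ), ← h, Finset.sum_div]
        refine Finset.sum_congr rfl fun j _ => ?_
        rw [hψ, div_pow]
        field_simp
      rw [map_sum, ← sub_zero (∑ _ ∈ _, _), ← e1, ← Finset.sum_sub_distrib,
        ← Finset.sum_neg_distrib]
      refine Finset.sum_congr rfl fun j _ => ?_
      rw [map_mul, map_pow, hf]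
      ring
    rw [e]
    exact (In.sum fun j hj => ((hb j (Nat.lt_succ_iff.mp (Finset.mem_range.mp hj))).mul
      (hk.fi.pow j)).add ((fi_alg hf _).mul_in (hpw j))).neg
  have h2 : ∑ j ∈ Finset.range (D + 1), (c' j : ℝ) * c0 ^ j = 0 := by
    by_contra hne
    exact Un.not_in (mk_map_of_archimedean' f hne) h1
  have h3 : IsAlgebraic AR c0 := by
    refine ⟨∑ j ∈ Finset.range (D + 1), monomial j (c' j), fun e => ?_, ?_⟩
    · have := congrArg (fun P => coeff P i) e
      simp only [finsetSum_coeff, coeff_monomial, Finset.sum_ite_eq', Finset.mem_range,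
        Nat.lt_succ_iff, hi.1, if_true, coeff_zero] at this
      exact hc i hi.2 (by simpa [c', hi.2, hκ] using this)
    · rw [map_sum, ← h2]
      exact Finset.sum_congr rfl fun j _ => by rw [aeval_monomial]; rfl
  have h4 : c0 ∈ algebraicClosure ℚ ℝ :=
    mem_algebraicClosure_iff.mpr (alg_of_alg h3)
  exact ⟨k, ⟨c0, h4⟩, fun e => hc00 (congrArg Subtype.val e), by rw [hf]; exact hin⟩

section Clos

variable {F : Subfield R} {V : R}

omit hf in
/-- elements approximable by the subfield `F` to every order in `V` -/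
def clos (F : Subfield R) (V : R) (hV : ¬ Fi V) (hB : ∀ x ∈ F, ∃ B : ℕ, Fi (x * V⁻¹ ^ B)) :
    Subring R where
  carrier := {x | ∀ J : ℕ, ∃ P ∈ F, Fi ((x - P) * V ^ J)}
  zero_mem' := fun _ => ⟨0, F.zero_mem, by simpa using in_zero.fi⟩
  one_mem' := fun _ => ⟨1, F.one_mem, by simpa using in_zero.fi⟩
  neg_mem' := fun {x} hx J => by
    obtain ⟨P, hP, h⟩ := hx J
    exact ⟨-P, F.neg_mem hP, by convert h.neg using 1; ring⟩
  add_mem' := fun {x y} hx hy J => by
    obtain ⟨P, hP, h⟩ := hx J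
    obtain ⟨Q, hQ, h'⟩ := hy J
    exact ⟨P + Q, F.add_mem hP hQ, by convert h.add h' using 1; ring⟩
  mul_mem' := fun {x y} hx hy J => by
    have h0 := W_ne hV
    have hi := (in_inv hV).fi
    obtain ⟨P0, hP0, h1⟩ := hx 0
    obtain ⟨B, h2⟩ := hB P0 hP0
    have h3 : Fi (x * V⁻¹ ^ B) := by
      convert (h1.mul (hi.pow B)).add h2 using 1; ring
    obtain ⟨Q, hQ, h4⟩ := hy (J + B)
    obtain ⟨B', h5⟩ := hB Q hQ
    obtain ⟨P, hP, h6⟩ := hx (J + B')
    refine ⟨P * Q, F.mul_mem hP hQ, ?_⟩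
    convert (h3.mul h4).add (h5.mul h6) using 1
    simp only [inv_pow]
    field_simp
    ring

omit hf [Algebra AR R] in
theorem o_mul {V a b a' b' : R} (ha : Fi a) (hb : Fi b') (h : Fi ((a - a') * V))
    (h' : Fi ((b - b') * V)) : Fi ((a * b - a' * b') * V) := by
  convert (ha.mul h').add (hb.mul h) using 1; ring

omit hf [Algebra AR R] in
theorem o_pow {V a a' : R} (ha : Fi a) (ha' : Fi a') (h : Fi ((a - a') * V)) (n : ℕ) :
    Fi ((a ^ n - a' ^ n) * V) := by
  induction n with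
  | zero => simpa using in_zero.fi
  | succ n ih => rw [pow_succ, pow_succ]; exact o_mul (ha.pow n) ha' ih h

theorem root_mem (hV : ¬ Fi V) (hA : ∀ c : AR, algebraMap AR R c ∈ F)
    (hS : ∀ x ∈ F, Fi x → ∃ c : AR, Fi ((x - algebraMap AR R c) * V)) {β : R} (h0 : 0 < β)
    (hu : Un β) {e : ℕ} (he : e ≠ 0) (hβ : β ^ e ∈ F) (J : ℕ) :
    ∃ P ∈ F, Fi ((β - P) * V ^ J) := by
  have hV0 := W_ne hV
  have hin : ∀ z : R, Fi (z * V) → In z := fun z hz => by
    simpa [mul_assoc, hV0] using hz.mul_in (in_inv hV)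
  obtain ⟨c0, hc0⟩ := hS _ hβ (hu.pow e).fi
  have hc0' : (0 : ℝ) < c0 := by
    by_contra hc
    have h1 : algebraMap AR R c0 ≤ 0 := by
      rw [hf, ← map_zero f]; exact f.monotone' (not_lt.mp hc)
    have h2 := pow_pos h0 e
    refine (hu.pow e).not_in (in_of_abs_le ?_ (hin _ hc0))
    rw [abs_of_pos h2, abs_of_pos (by linarith)]
    linarith
  have hce : ((c0 : ℝ) ^ ((e : ℝ)⁻¹)) ^ e = c0 := Real.rpow_inv_natCast_pow hc0'.le he
  obtain ⟨c, hc, hcp⟩ : ∃ c : AR, c ^ e = c0 ∧ (0 : ℝ) < c :=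
    ⟨⟨(c0 : ℝ) ^ ((e : ℝ)⁻¹), mem_algebraicClosure_iff.mpr (IsAlgebraic.of_pow
      (Nat.pos_of_ne_zero he) (by rw [hce]; exact mem_algebraicClosure_iff.mp c0.2))⟩,
      Subtype.ext hce, Real.rpow_pos_of_pos hc0' _⟩
  set γ := algebraMap AR R c with hγ
  have hγu : Un γ := un_alg hf fun e => by simp [e] at hcp
  have hγ0 : 0 < γ := by
    refine lt_of_le_of_ne ?_ hγu.ne.symm
    rw [hγ, hf, ← map_zero f]; exact f.monotone' hcp.le
  have h1 : Fi ((β - γ) * V) := by
    have h2 : γ ^ (e - 1) ≤ ∑ i ∈ Finset.range e, β ^ i * γ ^ (e - 1 - i) := by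
      simpa using Finset.single_le_sum (f := fun i => β ^ i * γ ^ (e - 1 - i))
        (fun i _ => by positivity) (Finset.mem_range.mpr (Nat.pos_of_ne_zero he))
    have h3 := (pow_pos hγ0 (e - 1)).trans_le h2
    have h4 : Fi (∑ i ∈ Finset.range e, β ^ i * γ ^ (e - 1 - i))⁻¹ :=
      fi_of_abs_le (by
        rw [abs_of_pos (inv_pos.mpr h3), abs_of_pos (by positivity)]
        exact inv_anti₀ (by positivity) h2) (hγu.pow (e - 1)).inv.fi
    convert h4.mul hc0 using 1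
    rw [← hc, map_pow, ← hγ, ← Commute.geom_sum₂_mul (Commute.all β γ)]
    field_simp
  have key : ∀ j : ℕ, ∃ P ∈ F, Fi ((β - P) * V ^ (j + 1)) := by
    intro j
    induction j with
    | zero => exact ⟨γ, hA c, by simpa using h1⟩
    | succ j ih =>
      obtain ⟨b, hb, h2⟩ := ih
      have h3 : Fi ((β - b) * V) := by
        convert h2.mul ((in_inv hV).fi.pow j) using 1
        rw [inv_pow]; field_simp; ring
      have hbf : Fi b := by simpa using hu.fi.sub (hin _ h3).fi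
      have h4 : Fi ((b - γ) * V) := by convert h1.sub h3 using 1; ring
      have hn : Un ((e : R) * γ ^ (e - 1)) :=
        Un.mul (mk_natCast he) (hγu.pow _)
      have h5 : Fi ((∑ i ∈ Finset.range e, β ^ i * b ^ (e - 1 - i) - e * γ ^ (e - 1)) * V) := by
        have : (e : R) * γ ^ (e - 1) = ∑ i ∈ Finset.range e, γ ^ i * γ ^ (e - 1 - i) := by
          rw [Finset.sum_congr rfl (g := fun _ => γ ^ (e - 1)) fun i hi => by
            rw [← pow_add]; congr 1; have := Finset.mem_range.mp hi; omega]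
          simp
        rw [this, ← Finset.sum_sub_distrib, Finset.sum_mul]
        exact Fi.sum fun i _ => o_mul (hu.fi.pow _) (hγu.fi.pow _) (o_pow hu.fi hγu.fi h1 _)
          (o_pow hbf hγu.fi h4 _)
      refine ⟨b + (β ^ e - b ^ e) / (e * γ ^ (e - 1)), F.add_mem hb (F.div_mem
        (F.sub_mem hβ (F.pow_mem hb _)) (F.mul_mem (natCast_mem F e) (F.pow_mem (hA c) _))), ?_⟩
      convert ((h2.mul h5).mul hn.inv.fi).neg using 1
      rw [← Commute.geom_sum₂_mul (Commute.all β b)]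
      have := hn.ne
      field_simp
      ring
  obtain ⟨P, hP, h⟩ := key J
  refine ⟨P, hP, ?_⟩
  convert h.mul (in_inv hV).fi using 1
  field_simp
  ring

end Clos

theorem approx {W : R} (hW : ¬ Fi W) (hW0 : 0 < W) {F : Subfield R}
    (hA : ∀ c : AR, algebraMap AR R c ∈ F) (hF : ∀ x ∈ F, x ≠ 0 → ∃ k, Ld W x k) {N : ℕ}
    (hN : N ≠ 0) (hu : W ^ N ∈ F) : ∃ g e : ℕ, g * e = N ∧ ∀ t ∈ F, ∀ J : ℕ, ∃ Q : AR[X],
      Fi ((W ^ g) ^ J * t - aeval (W ^ g) Q) := by
  have hWn := W_ne hW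
  let G : AddSubgroup ℤ :=
    { carrier := {k | ∃ x ∈ F, Un (x / W ^ k)}
      zero_mem' := ⟨1, F.one_mem, by simpa using un_one⟩
      add_mem' := fun {k l} ⟨x, hx, h⟩ ⟨y, hy, h'⟩ => ⟨x * y, F.mul_mem hx hy, by
        rw [zpow_add₀ hWn, mul_div_mul_comm]; exact h.mul h'⟩
      neg_mem' := fun {k} ⟨x, hx, h⟩ => ⟨x⁻¹, F.inv_mem hx, by
        rw [zpow_neg, inv_div_inv, ← inv_div]; exact h.inv⟩ }
  obtain ⟨a, ha⟩ := Int.subgroup_cyclic G
  have hdvd : ∀ k ∈ G, (a.natAbs : ℤ) ∣ k := fun k hk => by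
    rw [ha, AddSubgroup.mem_closure_singleton] at hk
    obtain ⟨n, rfl⟩ := hk
    simp
  have hNG : (N : ℤ) ∈ G := ⟨W ^ N, hu, by simpa [div_self (pow_ne_zero N hWn)] using un_one⟩
  obtain ⟨e, he⟩ : a.natAbs ∣ N := by exact_mod_cast hdvd _ hNG
  set g := a.natAbs with hg
  have hg0 : g ≠ 0 := fun h => hN (by simp [he, h])
  have he0 : e ≠ 0 := fun h => hN (by simp [he, h])
  have hgG : (-(g : ℤ)) ∈ G := by
    have : a ∈ G := ha ▸ AddSubgroup.mem_closure_singleton_self a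
    rcases Int.natAbs_eq a with h | h
    · exact G.neg_mem (h ▸ this)
    · exact h ▸ this
  set V := W ^ g with hV
  have hVn : ¬ Fi V := fun h => by
    have := le_of_fi_zpow hW (k := g) (by simpa using h)
    omega
  have hV0 : V ≠ 0 := W_ne hVn
  have hB : ∀ x ∈ F, ∃ B : ℕ, Fi (x * V⁻¹ ^ B) := fun x hx => by
    by_cases h0 : x = 0
    · exact ⟨0, by simpa [h0] using in_zero.fi⟩
    obtain ⟨k, hk⟩ := hF x hx h0
    refine ⟨k.natAbs, ?_⟩
    have h1 : k - (g * k.natAbs : ℕ) ≤ 0 := by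
      have : k.natAbs ≤ g * k.natAbs := Nat.le_mul_of_pos_left _ (Nat.pos_of_ne_zero hg0)
      omega
    convert (hk.un hf).fi.mul (fi_zpow hW h1) using 1
    rw [zpow_sub₀ hWn, zpow_natCast, pow_mul, inv_pow, ← hV]
    field_simp
  have hS0 : ∀ x ∈ F, In x → Fi (x * V) := fun x hx hin => by
    by_cases h0 : x = 0
    · simpa [h0] using in_zero.fi
    obtain ⟨k, hk⟩ := hF x hx h0
    have h1 := hk.un hf
    have h2 : k < 0 := lt_of_in_zpow hW (by
      convert hin.mul h1.inv.fi using 1; field_simp)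
    have h3 : k + g ≤ 0 := by
      have := Int.le_of_dvd (by omega) ((dvd_neg).mpr (hdvd k ⟨x, hx, h1⟩))
      omega
    convert h1.fi.mul (fi_zpow hW h3) using 1
    rw [zpow_add₀ hWn, zpow_natCast, ← hV]
    field_simp
  have hS : ∀ x ∈ F, Fi x → ∃ c : AR, Fi ((x - algebraMap AR R c) * V) := fun x hx hfi => by
    by_cases hin : In x
    · exact ⟨0, by simpa using hS0 x hx hin⟩
    have h0 := hfi.un hin
    obtain ⟨k, hk⟩ := hF x hx h0.ne
    have h1 : Un (W ^ k) := by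
      convert h0.div (hk.un hf) using 1
      have := h0.ne
      field_simp
    have h2 : k = 0 := le_antisymm (le_of_fi_zpow hW h1.fi)
      (not_lt.mp fun h => h1.not_in (in_zpow hW h))
    obtain ⟨c, -, hc⟩ := hk
    exact ⟨c, hS0 _ (F.sub_mem hx (hA c)) (by simpa [h2] using hc)⟩
  obtain ⟨π, hπ, hπu, hπ0⟩ : ∃ π ∈ F, Un (π * V) ∧ 0 < π := by
    obtain ⟨x, hx, h⟩ := hgG
    rw [zpow_neg, zpow_natCast, div_inv_eq_mul] at h
    rcases lt_or_gt_of_ne (left_ne_zero_of_mul h.ne) with h1 | h1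
    · exact ⟨-x, F.neg_mem hx, by rw [neg_mul, Un, mk_neg]; exact h, neg_pos.mpr h1⟩
    · exact ⟨x, hx, h, h1⟩
  have hε : (π * V) ^ e ∈ F := by
    rw [mul_pow, hV, ← pow_mul, ← he]; exact F.mul_mem (F.pow_mem hπ _) hu
  have hsub : ∀ x ∈ F, x ∈ clos F V hVn hB := fun x hx J => ⟨x, hx, by simpa using in_zero.fi⟩
  have hβ : π * V ∈ clos F V hVn hB :=
    root_mem hf hVn hA hS (mul_pos hπ0 (pow_pos hW0 _)) hπu he0 hε
  have hVm : V ∈ clos F V hVn hB := by
    convert mul_mem (hsub _ (F.inv_mem hπ)) hβ using 1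
    field_simp
  have hVi : V⁻¹ ∈ clos F V hVn hB := by
    convert mul_mem (hsub _ (F.div_mem hπ hε)) (pow_mem hβ (e - 1)) using 1
    obtain ⟨e, rfl⟩ := Nat.exists_eq_succ_of_ne_zero he0
    rw [Nat.succ_sub_one, pow_succ]
    field_simp
  refine ⟨g, e, he.symm, fun t ht J => ?_⟩
  obtain ⟨B, hBt⟩ := hB t ht
  have key : ∀ j : ℕ, ∃ Q : AR[X], Fi (V ^ j * (t * V⁻¹ ^ B) - aeval V Q) := by
    intro j
    induction j with
    | zero => exact ⟨0, by simpa using hBt⟩
    | succ j ih =>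
      obtain ⟨Q, hQ⟩ := ih
      have hQm : aeval V Q ∈ clos F V hVn hB := by
        rw [aeval_eq_sum_range]
        refine sum_mem fun i _ => ?_
        rw [Algebra.smul_def]
        exact mul_mem (hsub _ (hA _)) (pow_mem hVm _)
      obtain ⟨P, hP, h1⟩ := sub_mem (mul_mem (pow_mem hVm j) (mul_mem (hsub _ ht)
        (pow_mem hVi B))) hQm 1
      rw [pow_one] at h1
      have h2 : Fi P := by
        convert hQ.sub (h1.mul (in_inv hVn).fi) using 1
        field_simp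
        ring
      obtain ⟨c, hc⟩ := hS P hP h2
      refine ⟨X * (Q + C c), ?_⟩
      convert h1.add hc using 1
      simp only [map_mul, map_add, aeval_X, aeval_C]
      ring
  obtain ⟨Q, hQ⟩ := key (J + B)
  refine ⟨Q, ?_⟩
  convert hQ using 2
  rw [inv_pow, ← hV]
  field_simp
  ring

theorem main (u t : R) (V : ℕ → R) (hV0 : ∀ n, 0 < V n) (hV : ∀ n, n ≠ 0 → V n ^ n = u)
    (hu : ¬ Fi u) (d : ℕ) (H : ℕ → AR[X]) (hH : ∃ i ≤ d, H i ≠ 0)
    (h : ∑ i ∈ Finset.range (d + 1), aeval u (H i) * t ^ i = 0) :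
    ∃ e : ℕ, 0 < e ∧ ∀ J : ℕ, ∃ Q : AR[X], Fi (V e ^ J * t - aeval (V e) Q) := by
  let E := IntermediateField.adjoin AR {u}
  have huE : u ∈ E := IntermediateField.mem_adjoin_simple_self AR u
  have hHE : ∀ P : AR[X], aeval u P ∈ E := fun P =>
    (IntermediateField.mem_adjoin_simple_iff AR _).mpr ⟨P, 1, by simp⟩
  have ht : IsAlgebraic E t := by
    refine ⟨∑ i ∈ Finset.range (d + 1), monomial i ⟨_, hHE (H i)⟩, fun e => ?_, ?_⟩
    · obtain ⟨i, hi, hi0⟩ := hH
      have h1 := congrArg (fun P => coeff P i) e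
      simp only [finsetSum_coeff, coeff_monomial, Finset.sum_ite_eq', Finset.mem_range,
        Nat.lt_succ_iff, hi, if_true, coeff_zero] at h1
      have h2 : aeval u (H i) = 0 := congrArg Subtype.val h1
      have h3 := (ld_poly hf hu one_ne_zero hi0).un hf
      rw [pow_one, h2, zero_div] at h3
      exact h3.ne rfl
    · rw [map_sum, ← h]
      exact Finset.sum_congr rfl fun j _ => by rw [aeval_monomial]; rfl
  let F := IntermediateField.adjoin E {t}
  have : FiniteDimensional E F := IntermediateField.adjoin.finiteDimensional ht.isIntegral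
  have : Module.Free E F := Module.Free.of_divisionRing E F
  set D := Module.finrank E F with hD
  have hN : D.factorial ≠ 0 := D.factorial_ne_zero
  set W := V D.factorial with hW
  have hWu : W ^ D.factorial = u := hV _ hN
  have hWn : ¬ Fi W := fun h => hu (hWu ▸ h.pow _)
  obtain ⟨g, e, hge, hap⟩ := approx hf hWn (hV0 _) (F := F.toSubfield)
    (fun c => F.algebraMap_mem (algebraMap AR E c)) (fun x hx h0 => by
      have h1 : (minpoly E x).natDegree ≤ D := by
        have := minpoly.natDegree_le (A := E) (⟨x, hx⟩ : F)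
        rwa [IntermediateField.minpoly_eq] at this
      have hi : IsIntegral E x := (IsIntegral.of_finite E (⟨x, hx⟩ : F)).map F.val
      refine ld_of_rel hf hWn (D := D) (fun i => ((minpoly E x).coeff i : R)) (fun i hi => ?_)
        ⟨_, h1, by simp [minpoly.monic hi]⟩ h0 ?_
      · exact ld_adjoin hf hWn hN (by rw [hWu]; exact ((minpoly E x).coeff i).2) hi
      · have := minpoly.aeval E x
        rw [aeval_eq_sum_range' (Nat.lt_succ_of_le h1)] at this
        exact this) hN (by rw [hWu]; exact F.algebraMap_mem ⟨u, huE⟩)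
  have he : e ≠ 0 := fun h => hN (by simp [← hge, h])
  have hVe : W ^ g = V e := by
    refine (pow_left_inj₀ (pow_pos (hV0 _) _).le (hV0 _).le he).mp ?_
    rw [← pow_mul, hge, hWu, hV e he]
  exact ⟨e, Nat.pos_of_ne_zero he, fun J =>
    hVe ▸ hap t (IntermediateField.mem_adjoin_simple_self E t) J⟩

end Pui

open Pui in
theorem puiseux (U : Ultrafilter ℕ) (u t : ℕ → ℝ) (hu : Tendsto u U atTop) (d : ℕ)
    (H : ℕ → ℚ[X]) (hH : ∃ i ≤ d, H i ≠ 0)
    (h : ∀ᶠ k in U, ∑ i ∈ Finset.range (d + 1), aeval (u k) (H i) * t k ^ i = 0) :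
    ∃ e : ℕ, 0 < e ∧ ∀ J : ℕ, ∃ (Q : (↥(algebraicClosure ℚ ℝ))[X]) (C : ℝ),
      ∀ᶠ k in U, |(u k ^ ((e : ℝ)⁻¹)) ^ J * t k - aeval (u k ^ ((e : ℝ)⁻¹)) Q| ≤ C := by
  let Φ : (ℕ → ℝ) →+* Germ (U : Filter ℕ) ℝ := Germ.coeRingHom _
  let f : ℝ →+*o Germ (U : Filter ℕ) ℝ :=
    { Φ.comp (Pi.constRingHom ℕ ℝ) with monotone' := fun _ _ h => Germ.const_le h }
  let : Algebra AR (Germ (U : Filter ℕ) ℝ) := (f.toRingHom.comp (algebraMap AR ℝ)).toAlgebra
  have hev : ∀ (v : ℕ → ℝ) (Q : AR[X]), aeval (Φ v) Q = Φ fun k => aeval (v k) Q := by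
    intro v Q
    induction Q using Polynomial.induction_on' with
    | add P Q hP hQ => rw [map_add, hP, hQ, ← map_add]; congr 1; ext k; simp
    | monomial n c =>
      rw [aeval_monomial, ← map_pow]
      have : algebraMap AR (Germ (U : Filter ℕ) ℝ) c = Φ (fun _ => c) := rfl
      rw [this, ← map_mul]
      congr 1; ext k; simp [aeval_monomial]
  have hpos := hu.eventually_gt_atTop 0
  obtain ⟨e, he, hQ⟩ := main (f := f) (fun _ => rfl) (Φ u) (Φ t)
    (fun n => Φ fun k => u k ^ ((n : ℝ)⁻¹))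
    (fun n => Germ.coe_pos.mpr (hpos.mono fun k hk => Real.rpow_pos_of_pos hk _))
    (fun n hn => by
      rw [← map_pow]
      exact Germ.coe_eq.mpr (hpos.mono fun k hk => Real.rpow_inv_natCast_pow hk.le hn))
    (fun hfi => by
      obtain ⟨n, hn⟩ := exists_nat_ge_of_mk_nonneg hfi
      have h1 : Φ u ≤ Φ n := by rwa [map_natCast]
      obtain ⟨k, hk1, hk2⟩ := ((Germ.coe_le.mp h1).and (hu.eventually_gt_atTop n)).exists
      exact absurd hk1 (not_le.mpr hk2))
    d (fun i => (H i).map (algebraMap ℚ AR))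
    (hH.imp fun i hi => ⟨hi.1, (Polynomial.map_ne_zero_iff (algebraMap ℚ AR).injective).mpr hi.2⟩)
    (by
      simp only [hev, ← map_pow, ← map_mul, ← map_sum]
      rw [← map_zero Φ]
      refine Germ.coe_eq.mpr (h.mono fun k hk => ?_)
      simpa [aeval_map_algebraMap] using hk)
  refine ⟨e, he, fun J => ?_⟩
  obtain ⟨Q, hQ⟩ := hQ J
  rw [hev, ← map_pow, ← map_mul, ← map_sub] at hQ
  obtain ⟨n, hn⟩ := exists_nat_ge_of_mk_nonneg hQ
  obtain ⟨m, hm⟩ := exists_nat_ge_of_mk_nonneg hQ.neg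
  rw [← map_natCast Φ] at hn hm
  rw [← map_neg] at hm
  refine ⟨Q, n + m, ?_⟩
  filter_upwards [Germ.coe_le.mp hn, Germ.coe_le.mp hm] with k h1 h2
  simp only [Pi.sub_apply, Pi.mul_apply, Pi.pow_apply, Pi.natCast_apply, Pi.neg_apply] at h1 h2
  rw [abs_le]
  constructor <;> linarith [Nat.cast_nonneg (α := ℝ) n, Nat.cast_nonneg (α := ℝ) m]

end Pool.Agent.Lib.MP_6aa000_nt
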