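import Pool.Agent.Lib.MP_6aa000_nt.Gain
import Pool.Agent.Lib.MP_6aa000_nt.Puiseux
import Pool.Agent.Lib.MP_6aa000_nt.Arith

/-! The degenerate case: the points do not lie on a curve. -/

open Filter Real Polynomial

namespace Pool.Agent.Lib.MP_6aa000_nt

theorem curve_step (S : Finset ℕ) (σ : ℤ) (hσ : σ = 1 ∨ σ = -1) (A : ℝ) (U : Ultrafilter ℕ)
    (x Y W M1 M2 : ℕ → ℕ) (hn : Tendsto (fun k => x k ^ 2 * Y k ^ 3) U atTop)
    (h : ∀ᶠ k in U, 0 < x k ∧ 0 < Y k ∧ (W k : ℤ) = x k ^ 2 * Y k ^ 3 + σ ∧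
      W k ∈ Nat.factoredNumbers S ∧ M1 k ∈ Nat.factoredNumbers S ∧
      M2 k ∈ Nat.factoredNumbers S ∧
      log (M1 k) ≤ A * log (x k ^ 2 * Y k ^ 3) ∧ log (M2 k) ≤ A * log (x k ^ 2 * Y k ^ 3))
    (d : ℕ) (H : ℕ → ℚ[X]) (hH : ∃ i ≤ d, H i ≠ 0) (hrel : ∀ᶠ k in U,
      ∑ i ∈ Finset.range (d + 1), aeval (W k : ℝ) (H i) * (x k * Y k * M2 k / M1 k : ℝ) ^ i = 0) :
    False := by
  have hW : Tendsto W U atTop := tendsto_atTop.2 fun b => by
    filter_upwards [h, hn.eventually_ge_atTop (b + 1)] with k hk h1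
    have h2 := hk.2.2.1
    zify at h1 ⊢
    rcases hσ with rfl | rfl <;> omega
  obtain ⟨e, he, hQ⟩ := puiseux U (fun k => (W k : ℝ)) (fun k => x k * Y k * M2 k / M1 k)
    (tendsto_natCast_atTop_atTop.comp hW) d H hH hrel
  obtain ⟨T, hT0, hT⟩ := exists_pow_mul S e he
  obtain ⟨s, hsT, hs⟩ := (Ultrafilter.eventually_exists_mem_iff T.finite_toSet).1
    (h.mono fun k hk => hT (W k) hk.2.2.2.1)
  have s0 := hT0 s hsT
  choose! v hv using fun k (hk : ∃ v ∈ Nat.factoredNumbers S, W k = s * v ^ e) => hk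
  replace hs := hs.mono hv
  have hV : Tendsto v U atTop := tendsto_atTop.2 fun b => by
    filter_upwards [hs, hW.eventually_gt_atTop (s * b ^ e)] with k hk h1
    rw [hk.2] at h1
    exact (lt_of_pow_lt_pow_left₀ e (Nat.zero_le _) (lt_of_mul_lt_mul_left h1 s0.le)).le
  have nz : ∀ P : ℚ[X], P ≠ 0 → ∀ᶠ k in U, P.eval (v k : ℚ) ≠ 0 := fun P hP =>
    (tendsto_natCast_atTop_atTop.comp hV).eventually (P.eventually_atTop_not_isRoot hP)
  obtain ⟨a, a1, ae, aW⟩ : ∃ a : ℝ, 1 ≤ a ∧ a ^ e = s ∧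
      ∀ y : ℕ, ((s * y ^ e : ℕ) : ℝ) ^ ((e : ℝ)⁻¹) = a * y :=
    ⟨(s : ℝ) ^ ((e : ℝ)⁻¹), Real.one_le_rpow (by exact_mod_cast s0) (by positivity),
      Real.rpow_inv_natCast_pow (by positivity) he.ne', fun y => by
        push_cast
        rw [Real.mul_rpow (by positivity) (by positivity),
          Real.pow_rpow_inv_natCast (by positivity) he.ne']⟩
  have aa : a ∈ algebraicClosure ℚ ℝ := mem_algebraicClosure_iff.2
    (IsAlgebraic.of_pow he (ae ▸ isAlgebraic_natCast s))
  obtain ⟨J, hJ⟩ := exists_nat_ge |A|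
  obtain ⟨Q, C, hC⟩ := hQ (e * (J + 2))
  have nR : Tendsto (fun k => (x k : ℝ) ^ 2 * (Y k : ℝ) ^ 3) U atTop := by
    simpa [Function.comp_def] using (tendsto_natCast_atTop_atTop (R := ℝ)).comp hn
  obtain ⟨P, hP, hz⟩ := gain S 1 (e * (J + 2))
    (fun _ _ => -(Polynomial.C ((⟨a, aa⟩ : RA) ^ (e * (J + 2)))⁻¹ *
      Q.comp (Polynomial.C (⟨a, aa⟩ : RA) * X))) U
    (fun k => log (x k ^ 2 * Y k ^ 3)) (tendsto_log_atTop.comp nR) (J + 2) 1 one_pos v
    (fun k l => if l = 0 then M1 k else x k * Y k * M2 k) (fun k l => if l = 0 then M1 k else M2 k)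
    (fun k l => if l = 0 then 0 else -log (x k ^ 2 * Y k ^ 3)) (by
      filter_upwards [h, hs, hC, nR.eventually_ge_atTop 2,
        nR.eventually_ge_atTop (C * (2 * s) ^ (J + 2))] with k hk h1 h2 h3 h4
      obtain ⟨x0, Y0, hw, -, m1, m2, l1, l2⟩ := hk
      have p1 : (1 : ℝ) ≤ M1 k := by exact_mod_cast Nat.pos_of_ne_zero m1.1
      have p2 : (1 : ℝ) ≤ M2 k := by exact_mod_cast Nat.pos_of_ne_zero m2.1
      have p3 : (1 : ℝ) ≤ v k := by exact_mod_cast Nat.pos_of_ne_zero h1.1.1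
      have p4 : (1 : ℝ) ≤ x k := by exact_mod_cast x0
      have p5 : (1 : ℝ) ≤ Y k := by exact_mod_cast Y0
      have p6 : (1 : ℝ) ≤ s := by exact_mod_cast s0
      have p7 : (x k : ℝ) * Y k ≤ (x k : ℝ) ^ 2 * (Y k : ℝ) ^ 3 :=
        mul_le_mul (le_self_pow₀ p4 two_ne_zero) (le_self_pow₀ p5 three_ne_zero) (by positivity)
          (by positivity)
      have w1 : (s : ℝ) * (v k : ℝ) ^ e = (x k : ℝ) ^ 2 * (Y k : ℝ) ^ 3 + σ := by
        rw [h1.2] at hw; exact_mod_cast hw
      have w2 : (-1 : ℝ) ≤ σ ∧ (σ : ℝ) ≤ 1 := by rcases hσ with rfl | rfl <;> norm_num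
      rw [h1.2, aW] at h2
      generalize (x k : ℝ) ^ 2 * (Y k : ℝ) ^ 3 = n at *
      have n0 : 0 < n := by linarith
      have q0 : 0 ≤ log n := log_nonneg (by linarith)
      have jq : A * log n ≤ J * log n := mul_le_mul_of_nonneg_right ((le_abs_self A).trans hJ) q0
      have j0 : 0 ≤ J * log n := by positivity
      have b1 : (M1 k : ℝ) ≤ n ^ J := by
        rw [← log_le_log_iff (by linarith) (by positivity), log_pow]; linarith
      have b2 : (M2 k : ℝ) ≤ n ^ J := by
        rw [← log_le_log_iff (by linarith) (by positivity), log_pow]; linarith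
      have b3 : exp ((J + 2) * log n) = n ^ J * n * n := by
        rw [show (J + 2 : ℝ) = (J + 2 : ℕ) by push_cast; rfl, exp_nat_mul, exp_log n0]; ring
      have b4 : n ^ J ≤ n ^ J * n := le_mul_of_one_le_right (by positivity) (by linarith)
      have b5 : n ^ J * n ≤ n ^ J * n * n := le_mul_of_one_le_right (by positivity) (by linarith)
      refine ⟨h1.1, ?_, fun l hl => ?_, by simp [Finset.sum_range_succ]⟩
      · have k1 : (v k : ℝ) ≤ s * (v k : ℝ) ^ e :=
          (le_self_pow₀ p3 he.ne').trans (le_mul_of_one_le_left (by positivity) p6)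
        have k2 : log (v k) ≤ log (n ^ 2) := log_le_log (by linarith) (by nlinarith)
        rw [log_pow] at k2
        push_cast at k2
        linarith
      obtain rfl | rfl : l = 0 ∨ l = 1 := by omega
      · simp only [if_true, Int.cast_natCast, Nat.abs_cast, abs_zero, Finset.range_zero,
          Finset.sum_empty, add_zero, exp_zero, mul_one, b3]
        exact ⟨m1, dvd_rfl, by linarith, by linarith, by linarith,
          (abs_of_nonneg (by positivity)).le⟩
      · simp only [one_ne_zero, if_false, Finset.range_one, Finset.sum_singleton, if_true, b3,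
          abs_neg, abs_of_nonneg q0, exp_neg, exp_log n0]
        push_cast
        refine ⟨m2, Dvd.intro_left _ rfl, by linarith, ?_, by linarith, ?_⟩
        · rw [abs_of_nonneg (by positivity)]
          have := mul_le_mul p7 b2 (by positivity) n0.le
          linarith
        have a0 : 0 < a ^ (e * (J + 2)) := by positivity
        have k1 : (v k : ℝ) ^ (e * (J + 2)) * (x k * Y k * M2 k) +
            aeval (v k : ℝ) (-(Polynomial.C ((⟨a, aa⟩ : RA) ^ (e * (J + 2)))⁻¹ *
              Q.comp (Polynomial.C (⟨a, aa⟩ : RA) * X))) * M1 k =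
            ((a * v k) ^ (e * (J + 2)) * (x k * Y k * M2 k / M1 k) - aeval (a * v k) Q) *
              (M1 k / a ^ (e * (J + 2))) := by
          simp only [map_neg, map_mul, aeval_C, aeval_comp, aeval_X, map_inv₀, map_pow]
          rw [show algebraMap RA ℝ ⟨a, aa⟩ = a from rfl, mul_pow]
          field_simp
          ring
        have C0 : 0 ≤ C := (abs_nonneg _).trans h2
        have k2 : (M1 k : ℝ) / a ^ (e * (J + 2)) ≤ n ^ J :=
          (div_le_self (by positivity) (one_le_pow₀ a1)).trans b1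
        have k3 : n ^ (J + 2) ≤ (2 * s) ^ (J + 2) * (v k : ℝ) ^ (e * (J + 2)) := by
          rw [pow_mul, ← mul_pow]
          exact pow_le_pow_left₀ n0.le (by linarith) _
        have k4 : C * n ^ J * n ≤ (v k : ℝ) ^ (e * (J + 2)) := by
          refine le_of_mul_le_mul_left (le_trans ?_ k3) (show (0 : ℝ) < (2 * s) ^ (J + 2) by positivity)
          calc _ = C * (2 * s) ^ (J + 2) * (n ^ J * n) := by ring
            _ ≤ n * (n ^ J * n) := mul_le_mul_of_nonneg_right h4 (by positivity)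
            _ = _ := by ring
        rw [k1, abs_mul, abs_of_nonneg (show 0 ≤ (M1 k : ℝ) / a ^ (e * (J + 2)) by positivity)]
        refine (mul_le_mul h2 k2 (by positivity) C0).trans ?_
        rw [← mul_assoc, ← div_eq_mul_inv, le_div_iff₀ n0]
        exact k4.trans (le_mul_of_one_le_right (by positivity) p2))
  simp only [Finset.sum_range_succ, Finset.range_zero, Finset.sum_empty, zero_add, if_true,
    one_ne_zero, if_false] at hz
  have P1 : P 1 ≠ 0 := fun e1 => by
    obtain ⟨l, hl, h0⟩ := hP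
    obtain rfl | rfl : l = 0 ∨ l = 1 := by omega
    · obtain ⟨k, k1, k2, k3⟩ := (hz.and ((nz _ h0).and h)).exists
      rw [e1, eval_zero, zero_mul, add_zero, mul_eq_zero] at k1
      exact k1.elim k2 fun e => k3.2.2.2.2.1.1 (by exact_mod_cast e)
    · exact h0 e1
  obtain ⟨S', hS, hS'⟩ := arith S s e s0 he σ hσ (-P 0) (P 1) P1
  refine not_consecutive S' σ hσ U _ W hn ?_
  filter_upwards [h, hs, hz, nz _ P1] with k hk h1 h2 h3
  refine ⟨hS' (v k) _ _ _ _ hk.2.2.2.2.1 hk.2.2.2.2.2.1 hk.1 hk.2.1 ?_ h3 ?_,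
    Nat.factoredNumbers_mono hS hk.2.2.2.1, by exact_mod_cast hk.2.2.1⟩
  · rw [← hk.2.2.1, h1.2]; push_cast; rfl
  · push_cast at h2
    rw [eval_neg]
    linarith

end Pool.Agent.Lib.MP_6aa000_nt
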