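import Pool.Agent.Shared.SubspaceAlg.Units

/-! A triangular system of small forms forces a dependence over the rational function field. -/

open Filter Real Polynomial

namespace Pool.Agent.Lib.MP_6aa000_nt

open Pool.Agent.Shared.SubspaceAlg

/-- the field of real algebraic numbers -/
abbrev RA : Type := ↥(algebraicClosure ℚ ℝ)

/-- the block triangular matrix of forms -/
noncomputable def gainMat (L B M N : ℕ) (Λ : ℕ → ℕ → RA[X]) :
    Matrix (Fin (L + 1) × Fin N) (Fin (L + 1) × Fin N) ℝ := fun a b =>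
  (if b = a then 1 else 0) + if (B ≤ a.2.val ∧ a.2.val < M + B) ∧ b.1.val < a.1.val then
    (((X ^ (a.2.val - B) * Λ a.1 b.1).coeff b.2 : RA) : ℝ) else 0

theorem gainMat_alg (L B M N : ℕ) (Λ : ℕ → ℕ → RA[X]) (a b : Fin (L + 1) × Fin N) :
    IsAlgebraic ℚ (gainMat L B M N Λ a b) := by
  unfold gainMat
  refine IsAlgebraic.add ?_ ?_
  · split_ifs
    · exact isAlgebraic_one
    · exact isAlgebraic_zero
  · split_ifs
    · exact mem_algebraicClosure_iff.1 (Subtype.property _)
    · exact isAlgebraic_zero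

theorem gainMat_det (L B M N : ℕ) (Λ : ℕ → ℕ → RA[X]) : (gainMat L B M N Λ).det ≠ 0 := by
  intro h0
  obtain ⟨v, hv, hz⟩ := Matrix.exists_mulVec_eq_zero_iff.2 h0
  have key : ∀ n : ℕ, ∀ a : Fin (L + 1) × Fin N, a.1.val = n → v a = 0 := by
    intro n
    induction n using Nat.strong_induction_on with
    | _ n ih =>
      intro a ha
      have h1 := congrFun hz a
      simp only [Matrix.mulVec, dotProduct, gainMat, add_mul, Finset.sum_add_distrib, ite_mul,
        one_mul, zero_mul, Finset.sum_ite_eq', Finset.mem_univ, if_true, Pi.zero_apply] at h1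
      rw [Finset.sum_eq_zero, add_zero] at h1
      · exact h1
      · intro b _
        split_ifs with hb
        · rw [ih b.1.val (ha ▸ hb.2) b rfl, mul_zero]
        · rfl
  exact hv (funext fun a => key _ a rfl)

theorem gainMat_row (L B M N : ℕ) (Λ : ℕ → ℕ → RA[X]) (R : ℕ)
    (hR : ∀ l ≤ L, ∀ i ≤ L, (Λ l i).natDegree < R) (hN : M + R ≤ N) (v : ℝ) (Φ : ℕ → ℝ)
    (a : Fin (L + 1) × Fin N) :
    ∑ b, gainMat L B M N Λ a b * (v ^ b.2.val * Φ b.1) =
      if B ≤ a.2.val ∧ a.2.val < M + B then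
        v ^ (a.2.val - B) * (v ^ B * Φ a.1 + ∑ i ∈ Finset.range a.1, aeval v (Λ a.1 i) * Φ i)
      else v ^ a.2.val * Φ a.1 := by
  simp only [gainMat, add_mul, Finset.sum_add_distrib, ite_mul, one_mul, zero_mul,
    Finset.sum_ite_eq', Finset.mem_univ, if_true]
  by_cases hc : B ≤ a.2.val ∧ a.2.val < M + B
  · simp only [hc, true_and, and_self, if_true]
    rw [mul_add, ← mul_assoc, ← pow_add, Nat.sub_add_cancel hc.1, Fintype.sum_prod_type,
      Finset.mul_sum]
    congr 1
    have e : ∀ i : Fin (L + 1), (∑ c : Fin N, if i.val < a.1.val then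
        (((X ^ (a.2.val - B) * Λ a.1 i).coeff c : RA) : ℝ) * (v ^ c.val * Φ i) else 0) =
        if i.val < a.1.val then v ^ (a.2.val - B) * (aeval v (Λ a.1 i) * Φ i) else 0 := by
      intro i
      split_ifs with hi
      · have hd : (X ^ (a.2.val - B) * Λ a.1 i).natDegree < N := by
          have h1 := natDegree_mul_le (p := (X : RA[X]) ^ (a.2.val - B)) (q := Λ a.1 i)
          have h2 := hR a.1 (Nat.lt_succ_iff.1 a.1.2) i (Nat.lt_succ_iff.1 i.2)
          rw [natDegree_X_pow] at h1
          omega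
        have h3 := aeval_eq_sum_range' hd v
        rw [map_mul, map_pow, aeval_X] at h3
        rw [← mul_assoc, h3, Finset.sum_mul, Finset.sum_range]
        refine Finset.sum_congr rfl fun c _ => ?_
        rw [Algebra.smul_def, mul_assoc]
        rfl
      · exact Finset.sum_const_zero
    rw [Finset.sum_congr rfl fun i _ => e i,
      Fin.sum_univ_eq_sum_range (fun i => if i < a.1.val then
        v ^ (a.2.val - B) * (aeval v (Λ a.1 i) * Φ i) else 0), ← Finset.sum_filter]
    refine Finset.sum_congr ?_ fun _ _ => rfl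
    ext i
    have := a.1.2
    simp only [Finset.mem_filter, Finset.mem_range]
    omega
  · simp only [hc, false_and, if_false, Finset.sum_const_zero, add_zero]

theorem gain_sum_ite (B M R : ℕ) (a b : ℝ) :
    (∑ c : Fin (M + B + R), if B ≤ c.val ∧ c.val < M + B then a else b) = M * a + (B + R) * b := by
  rw [Fin.sum_univ_eq_sum_range (fun c => if B ≤ c ∧ c < M + B then a else b)]
  have e : ∀ c : ℕ, (if B ≤ c ∧ c < M + B then a else b) =
      b + if B ≤ c ∧ c < M + B then a - b else 0 := fun c => by split_ifs <;> ring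
  have e2 : (Finset.range (M + B + R)).filter (fun c => B ≤ c ∧ c < M + B) =
      Finset.Ico B (M + B) := by
    ext c
    simp only [Finset.mem_filter, Finset.mem_range, Finset.mem_Ico]
    omega
  simp only [e, Finset.sum_add_distrib, ← Finset.sum_filter, e2, Finset.sum_const,
    Finset.card_range, Nat.card_Ico, Nat.add_sub_cancel, nsmul_eq_mul]
  push_cast
  ring

theorem gain (S : Finset ℕ) (L B : ℕ) (Λ : ℕ → ℕ → RA[X])
    (U : Ultrafilter ℕ) (q : ℕ → ℝ) (hq : Tendsto q U atTop) (A δ : ℝ) (hδ : 0 < δ)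
    (V : ℕ → ℕ) (Φ : ℕ → ℕ → ℤ) (m : ℕ → ℕ → ℕ) (ρ : ℕ → ℕ → ℝ)
    (h : ∀ᶠ k in U, V k ∈ Nat.factoredNumbers S ∧ log (V k) ≤ A * q k ∧
      (∀ l ≤ L, m k l ∈ Nat.factoredNumbers S ∧ (m k l : ℤ) ∣ Φ k l ∧ log (m k l) ≤ A * q k ∧
        |(Φ k l : ℝ)| ≤ exp (A * q k) ∧ |ρ k l| ≤ A * q k ∧
        |(V k : ℝ) ^ B * Φ k l + ∑ i ∈ Finset.range l, aeval (V k : ℝ) (Λ l i) * Φ k i| ≤
          (V k : ℝ) ^ B * (m k l * exp (ρ k l))) ∧
      ∑ l ∈ Finset.range (L + 1), ρ k l ≤ -δ * q k) :
    ∃ P : ℕ → ℚ[X], (∃ l ≤ L, P l ≠ 0) ∧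
      ∀ᶠ k in U, ∑ l ∈ Finset.range (L + 1), (P l).eval (V k : ℚ) * (Φ k l : ℚ) = 0 := by
  obtain ⟨R, hR⟩ : ∃ R : ℕ, ∀ l ≤ L, ∀ i ≤ L, (Λ l i).natDegree < R :=
    ⟨((Finset.range (L + 1)).sup fun l => (Finset.range (L + 1)).sup fun i => (Λ l i).natDegree) + 1,
      fun l hl i hi => Nat.lt_succ_of_le (le_trans
        (Finset.le_sup (f := fun i => (Λ l i).natDegree) (Finset.mem_range.2 (Nat.lt_succ_of_le hi)))
        (Finset.le_sup (f := fun l => (Finset.range (L + 1)).sup fun i => (Λ l i).natDegree)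
          (Finset.mem_range.2 (Nat.lt_succ_of_le hl))))⟩
  obtain ⟨M, hM⟩ := exists_nat_ge ((1 + (L + 1) * ((B + R) * A)) / δ)
  rw [div_le_iff₀ hδ] at hM
  obtain ⟨ζ, hζ, hev⟩ := subspace_units S (gainMat L B M (M + B + R) Λ) (gainMat_alg _ _ _ _ _)
    (gainMat_det _ _ _ _ _) U q hq ((((M + B + R : ℕ) : ℝ) + 1) * A) 1 one_pos
    (fun k a => (V k : ℤ) ^ a.2.val * Φ k a.1) (fun k a => V k ^ a.2.val * m k a.1)
    (fun k a => if B ≤ a.2.val ∧ a.2.val < M + B then ρ k a.1 else A * q k) (by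
      filter_upwards [h, hq.eventually_ge_atTop 0] with k hk hq0
      obtain ⟨hV, hlV, hl, hs⟩ := hk
      have hA : 0 ≤ A * q k := (abs_nonneg _).trans (hl 0 (Nat.zero_le _)).2.2.2.2.1
      have hV0 : (0 : ℝ) < V k := by exact_mod_cast Nat.pos_of_ne_zero hV.1
      have hN0 : (0 : ℝ) ≤ ((M + B + R : ℕ) : ℝ) := Nat.cast_nonneg _
      refine ⟨fun a => ?_, ?_⟩
      · obtain ⟨h1, h2, h3, h4, h5, h6⟩ := hl a.1 (Nat.lt_succ_iff.1 a.1.2)
        have hm1 : (1 : ℝ) ≤ m k a.1 := by exact_mod_cast Nat.pos_of_ne_zero h1.1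
        refine ⟨?_, ?_, ?_, ?_, ?_⟩
        · refine Nat.mul_mem_factoredNumbers ?_ h1
          induction a.2.val with
          | zero => simpa using Nat.mem_factoredNumbers'.2 fun p hp h => absurd (Nat.le_of_dvd one_pos h) (by have := hp.two_le; omega)
          | succ n ih => rw [pow_succ]; exact Nat.mul_mem_factoredNumbers ih hV
        · push_cast
          exact mul_dvd_mul_left _ h2
        · push_cast
          rw [log_mul (by positivity) (by positivity), log_pow]
          have hc : (a.2.val : ℝ) ≤ ((M + B + R : ℕ) : ℝ) := by exact_mod_cast a.2.2.le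
          push_cast at hc
          have h7 : (a.2.val : ℝ) * log (V k) ≤ a.2.val * (A * q k) :=
            mul_le_mul_of_nonneg_left hlV (Nat.cast_nonneg _)
          nlinarith
        · have : A * q k ≤ (((M + B + R : ℕ) : ℝ) + 1) * A * q k := by nlinarith
          split_ifs
          · exact h5.trans this
          · rw [abs_of_nonneg hA]; exact this
        · have e := gainMat_row L B M (M + B + R) Λ R hR (by omega) (V k : ℝ)
            (fun l => (Φ k l : ℝ)) a
          push_cast
          rw [e]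
          split_ifs with hc
          · rw [abs_mul, abs_of_pos (pow_pos hV0 _)]
            refine (mul_le_mul_of_nonneg_left h6 (pow_pos hV0 _).le).trans_eq ?_
            rw [← mul_assoc, ← pow_add, Nat.sub_add_cancel hc.1, mul_assoc]
          · rw [abs_mul, abs_of_pos (pow_pos hV0 _), mul_assoc]
            exact mul_le_mul_of_nonneg_left
              (h4.trans (le_mul_of_one_le_left (exp_pos _).le hm1)) (pow_pos hV0 _).le
      · rw [Fintype.sum_prod_type]
        simp only [gain_sum_ite]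
        rw [Fin.sum_univ_eq_sum_range (fun l => (M : ℝ) * ρ k l + (B + R) * (A * q k)),
          Finset.sum_add_distrib, ← Finset.mul_sum, Finset.sum_const, Finset.card_range,
          nsmul_eq_mul]
        push_cast
        have h7 := mul_le_mul_of_nonneg_left hs (Nat.cast_nonneg (α := ℝ) M)
        have h8 := mul_le_mul_of_nonneg_right hM hq0
        nlinarith)
  refine ⟨fun l => if hl : l < L + 1 then ∑ c, monomial c.val (ζ (⟨l, hl⟩, c)) else 0, ?_, ?_⟩
  · obtain ⟨a, ha⟩ := Function.ne_iff.1 hζ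
    refine ⟨a.1, Nat.lt_succ_iff.1 a.1.2, fun h0 => ha ?_⟩
    have h1 := congrArg (fun p : ℚ[X] => p.coeff a.2.val) h0
    simp only [a.1.2, dif_pos, finsetSum_coeff, coeff_monomial, Fin.val_inj, Finset.sum_ite_eq',
      Finset.mem_univ, if_true, coeff_zero] at h1
    exact h1
  · filter_upwards [hev] with k hk
    rw [Finset.sum_range, ← hk, Fintype.sum_prod_type]
    refine Finset.sum_congr rfl fun l _ => ?_
    simp only [l.2, dif_pos, eval_finsetSum, eval_monomial, Finset.sum_mul]
    push_cast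
    exact Finset.sum_congr rfl fun c _ => by ring

end Pool.Agent.Lib.MP_6aa000_nt
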