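import Pool.Agent.Lib.MP_6aa000_nt.Region

/-! Rational exponents. -/

open Filter Real

namespace Pool.Agent.Lib.MP_6aa000_nt

theorem ratexp_pow (X : ℝ) (hX : 0 < X) (a : ℚ) (N : ℕ) (c : ℤ) (h : a * N = c) :
    (X ^ (a : ℝ)) ^ N = X ^ c := by
  rw [← rpow_natCast, ← rpow_mul hX.le, ← rpow_intCast]
  congr 1
  exact_mod_cast h

theorem near_units_rat (t : ℕ) (a b : ℚ) (hab : 3 * a ≠ 2 * b) (θ : ℝ) (hθ : IsAlgebraic ℚ θ)
    (hθ0 : 0 < θ) (A ε : ℝ) (hε : 0 < ε) :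
    {p : ℤ × ℤ | p.1 ≠ 0 ∧ p.2 ≠ 0 ∧
      (∀ q ∈ Nat.primeFactors (1 + p.1 ^ 2 * p.2 ^ 3).natAbs, q ≤ t) ∧
      ∃ w₁ w₂ : ℕ, w₁ ≠ 0 ∧ w₂ ≠ 0 ∧ (∀ q ∈ Nat.primeFactors (w₁ * w₂), q ≤ t) ∧
        (w₁ * w₂ : ℝ) ≤ (|(p.1 : ℝ)| ^ 2 * |(p.2 : ℝ)| ^ 3) ^ A ∧
        |(|(p.1 : ℝ)| ^ (a : ℝ) * |(p.2 : ℝ)| ^ (b : ℝ)) / (θ * (w₁ / w₂)) - 1| ≤
          exp (-(log |(p.1 : ℝ)| * log |(p.2 : ℝ)| / log (|(p.1 : ℝ)| ^ 2 * |(p.2 : ℝ)| ^ 3)) -
            ε * log (|(p.1 : ℝ)| ^ 2 * |(p.2 : ℝ)| ^ 3))}.Finite := by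
  set N : ℕ := a.den * b.den with hN
  have hN0 : 0 < N := Nat.mul_pos a.den_pos b.den_pos
  have ha : a * N = ((a.num * b.den : ℤ) : ℚ) := by
    rw [hN]; push_cast; rw [← mul_assoc, Rat.mul_den_eq_num]
  have hb : b * N = ((b.num * a.den : ℤ) : ℚ) := by
    rw [hN]; push_cast; rw [mul_comm (a.den : ℚ), ← mul_assoc, Rat.mul_den_eq_num]
  have hab' : 3 * (a.num * b.den : ℤ) ≠ 2 * (b.num * a.den : ℤ) := by
    intro h
    have h1 : (3 : ℚ) * ((a.num * b.den : ℤ) : ℚ) = 2 * ((b.num * a.den : ℤ) : ℚ) := by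
      exact_mod_cast h
    rw [← ha, ← hb] at h1
    have hN' : (N : ℚ) ≠ 0 := by exact_mod_cast hN0.ne'
    apply hab
    apply mul_right_cancel₀ hN'
    linarith
  have hfin := near_units t _ _ hab' (θ ^ N) (hθ.pow _) (pow_pos hθ0 _) (A * N) (ε / 2)
    (by positivity)
  refine (hfin.union (region_box (exp (2 * (N * log 3) / ε)))).subset ?_
  rintro ⟨x, y⟩ ⟨hx, hy, hsm, w₁, w₂, h1, h2, hw, hA, h⟩
  simp only at hx hy hsm hA h
  have hx1 : (1 : ℝ) ≤ |(x : ℝ)| := by exact_mod_cast Int.one_le_abs hx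
  have hy1 : (1 : ℝ) ≤ |(y : ℝ)| := by exact_mod_cast Int.one_le_abs hy
  set X := |(x : ℝ)| with hXd
  set Y := |(y : ℝ)| with hYd
  have hX : 0 < X := by linarith
  have hY : 0 < Y := by linarith
  have hX2 : 1 ≤ X ^ 2 := one_le_pow₀ hx1
  have hY3 : 1 ≤ Y ^ 3 := one_le_pow₀ hy1
  have hn1 : 1 ≤ X ^ 2 * Y ^ 3 := by nlinarith
  have hn0 : 0 < X ^ 2 * Y ^ 3 := by linarith
  have hlog : 0 ≤ log (X ^ 2 * Y ^ 3) := log_nonneg hn1
  by_cases hc : exp (2 * (N * log 3) / ε) ≤ X ^ 2 * Y ^ 3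
  · left
    have hw1 : (0 : ℝ) < w₁ := by exact_mod_cast Nat.pos_of_ne_zero h1
    have hw2 : (0 : ℝ) < w₂ := by exact_mod_cast Nat.pos_of_ne_zero h2
    refine ⟨hx, hy, hsm, w₁ ^ N, w₂ ^ N, pow_ne_zero _ h1, pow_ne_zero _ h2, ?_, ?_, ?_⟩
    · intro q hq
      rw [← mul_pow, Nat.primeFactors_pow _ hN0.ne'] at hq
      exact hw q hq
    · show ((w₁ ^ N : ℕ) : ℝ) * ((w₂ ^ N : ℕ) : ℝ) ≤ (X ^ 2 * Y ^ 3) ^ (A * N)
      push_cast
      rw [← mul_pow, rpow_mul hn0.le, rpow_natCast]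
      exact pow_le_pow_left₀ (by positivity) hA N
    · show |X ^ (a.num * b.den : ℤ) * Y ^ (b.num * a.den : ℤ) /
          (θ ^ N * (((w₁ ^ N : ℕ) : ℝ) / ((w₂ ^ N : ℕ) : ℝ))) - 1| ≤
        exp (-(log X * log Y / log (X ^ 2 * Y ^ 3)) - ε / 2 * log (X ^ 2 * Y ^ 3))
      set z := X ^ (a : ℝ) * Y ^ (b : ℝ) / (θ * (w₁ / w₂)) with hz
      have hz0 : 0 ≤ z := by positivity
      have e : X ^ (a.num * b.den : ℤ) * Y ^ (b.num * a.den : ℤ) /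
          (θ ^ N * (((w₁ ^ N : ℕ) : ℝ) / ((w₂ ^ N : ℕ) : ℝ))) = z ^ N := by
        rw [hz, div_pow, mul_pow, mul_pow, div_pow, ratexp_pow X hX a N _ ha,
          ratexp_pow Y hY b N _ hb]
        push_cast
        rfl
      rw [e]
      have hq : 0 ≤ log X * log Y / log (X ^ 2 * Y ^ 3) :=
        div_nonneg (mul_nonneg (log_nonneg hx1) (log_nonneg hy1)) hlog
      have hεl : 0 ≤ ε * log (X ^ 2 * Y ^ 3) := by positivity
      have hz2 : z ≤ 2 := by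
        have h3 : exp (-(log X * log Y / log (X ^ 2 * Y ^ 3)) - ε * log (X ^ 2 * Y ^ 3)) ≤ 1 :=
          exp_le_one_iff.2 (by linarith)
        have h4 := le_abs_self (z - 1)
        linarith
      have h5 : 2 * (N * log 3) / ε ≤ log (X ^ 2 * Y ^ 3) := by
        have := log_le_log (exp_pos _) hc
        rwa [log_exp] at this
      rw [div_le_iff₀ hε] at h5
      have h6 : (3 : ℝ) ^ N = exp (N * log 3) := by
        rw [← log_pow, exp_log (by positivity)]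
      calc |z ^ N - 1| ≤ 3 ^ N * |z - 1| := region_pow_sub_one N z hz0 hz2
        _ ≤ 3 ^ N * exp (-(log X * log Y / log (X ^ 2 * Y ^ 3)) - ε * log (X ^ 2 * Y ^ 3)) :=
          mul_le_mul_of_nonneg_left h (by positivity)
        _ ≤ _ := by
          rw [h6, ← exp_add]
          apply exp_le_exp.2
          linarith
  · right
    push Not at hc
    refine ⟨?_, ?_⟩
    · show X ≤ _
      nlinarith
    · show Y ≤ _
      have : Y ≤ Y ^ 3 := le_self_pow₀ hy1 (by norm_num)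
      nlinarith

end Pool.Agent.Lib.MP_6aa000_nt
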