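import Pool.Agent.Lib.MP_6aa000_nt.Step
import Pool.Agent.Lib.MP_6aa000_nt.Curve

/-! Reduction of a general monomial to `x * y`, and finiteness. -/

open Filter Real Polynomial

namespace Pool.Agent.Lib.MP_6aa000_nt

theorem reduce_abs_le {z : ℝ} (hz : 0 < z) {e : ℕ} (he : 0 < e) : |z - 1| ≤ |z ^ e - 1| := by
  rcases le_total 1 z with h | h
  · have h1 : z ≤ z ^ e := le_self_pow₀ h he.ne'
    rw [abs_of_nonneg (by linarith), abs_of_nonneg (by linarith)]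
    linarith
  · have h1 : z ^ e ≤ z := pow_le_of_le_one hz.le h he.ne'
    rw [abs_of_nonpos (by linarith), abs_of_nonpos (by linarith)]
    linarith

theorem reduce_pos_of_mem {S : Finset ℕ} {m : ℕ} (h : m ∈ Nat.factoredNumbers S) : 0 < m :=
  Nat.pos_of_ne_zero (Nat.ne_zero_of_mem_factoredNumbers h)

theorem reduce_pow_mem {S : Finset ℕ} {m : ℕ} (h : m ∈ Nat.factoredNumbers S) (j : ℕ) :
    m ^ j ∈ Nat.factoredNumbers S := by
  rw [Nat.mem_factoredNumbers'] at h ⊢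
  exact fun p hp hd => h p hp (hp.dvd_of_dvd_pow hd)

theorem reduce_split (S : Finset ℕ) {e : ℕ} (he : 0 < e) (U : Ultrafilter ℕ) (N : ℕ → ℕ)
    (h : ∀ᶠ k in U, N k ∈ Nat.factoredNumbers S) :
    ∃ s : ℕ, 0 < s ∧ ∃ M : ℕ → ℕ, ∀ᶠ k in U, M k ∈ Nat.factoredNumbers S ∧ N k = s * M k ^ e := by
  obtain ⟨T, hT, hT'⟩ := exists_pow_mul S e he
  have h1 : ∀ᶠ k in U, ∃ s ∈ (T : Set ℕ), ∃ v, v ∈ Nat.factoredNumbers S ∧ N k = s * v ^ e :=
    h.mono fun k hk => by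
      obtain ⟨s, hs, v, hv, hv'⟩ := hT' _ hk
      exact ⟨s, hs, v, hv, hv'⟩
  obtain ⟨s, hs, h2⟩ := (Ultrafilter.eventually_exists_mem_iff T.finite_toSet).1 h1
  exact ⟨s, hT s hs, h2.choice⟩

theorem reduce_log_le {s M e N : ℕ} (hs : 0 < s) (hM : 0 < M) (he : 0 < e) (h : N = s * M ^ e) :
    log (M : ℝ) ≤ log (N : ℝ) := by
  refine log_le_log (by exact_mod_cast hM) ?_
  have h1 : M ≤ M ^ e := Nat.le_self_pow he.ne' M
  have h2 : M ^ e ≤ s * M ^ e := Nat.le_mul_of_pos_left _ hs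
  exact_mod_cast h ▸ h1.trans h2

theorem reduce_core (S : Finset ℕ) (σ : ℤ) (hσ : σ = 1 ∨ σ = -1) (e : ℕ) (he : 0 < e) (θ : ℝ)
    (hθ : IsAlgebraic ℚ θ) (hθ0 : 0 < θ) (A ε : ℝ) (hε : 0 < ε) (U : Ultrafilter ℕ)
    (x Y W N1 N2 : ℕ → ℕ) (hn : Tendsto (fun k => x k ^ 2 * Y k ^ 3) U atTop)
    (h : ∀ᶠ k in U, 0 < x k ∧ 0 < Y k ∧ (W k : ℤ) = x k ^ 2 * Y k ^ 3 + σ ∧
      W k ∈ Nat.factoredNumbers S ∧ N1 k ∈ Nat.factoredNumbers S ∧
      N2 k ∈ Nat.factoredNumbers S ∧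
      log (N1 k) ≤ A * log (x k ^ 2 * Y k ^ 3) ∧ log (N2 k) ≤ A * log (x k ^ 2 * Y k ^ 3) ∧
      |((x k * Y k) ^ e * N2 k / N1 k : ℝ) / θ - 1| ≤
        exp (-(log (x k) * log (Y k) / log (x k ^ 2 * Y k ^ 3)) - ε * log (x k ^ 2 * Y k ^ 3))) :
    False := by
  obtain ⟨s1, hs1, M1, h1⟩ := reduce_split S he U N1 (h.mono fun k hk => hk.2.2.2.2.1)
  obtain ⟨s2, hs2, M2, h2⟩ := reduce_split S he U N2 (h.mono fun k hk => hk.2.2.2.2.2.1)
  have hs1' : (0 : ℝ) < s1 := by exact_mod_cast hs1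
  have hs2' : (0 : ℝ) < s2 := by exact_mod_cast hs2
  obtain ⟨θ', hθ'0, hθ'e⟩ : ∃ θ' : ℝ, 0 < θ' ∧ θ' ^ e = θ * s1 / s2 :=
    ⟨(θ * s1 / s2) ^ ((e : ℝ)⁻¹), Real.rpow_pos_of_pos (by positivity) _,
      Real.rpow_inv_natCast_pow (by positivity) he.ne'⟩
  have hθ' : IsAlgebraic ℚ θ' := by
    refine IsAlgebraic.of_pow he ?_
    rw [hθ'e, div_eq_mul_inv]
    exact (hθ.mul (isAlgebraic_natCast s1)).mul (isAlgebraic_natCast s2).inv
  have hall : ∀ᶠ k in U, 0 < x k ∧ 0 < Y k ∧ (W k : ℤ) = x k ^ 2 * Y k ^ 3 + σ ∧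
      W k ∈ Nat.factoredNumbers S ∧ M1 k ∈ Nat.factoredNumbers S ∧
      M2 k ∈ Nat.factoredNumbers S ∧
      log (M1 k) ≤ A * log (x k ^ 2 * Y k ^ 3) ∧ log (M2 k) ≤ A * log (x k ^ 2 * Y k ^ 3) ∧
      |(x k * Y k * M2 k / M1 k : ℝ) / θ' - 1| ≤
        exp (-(log (x k) * log (Y k) / log (x k ^ 2 * Y k ^ 3)) -
          ε * log (x k ^ 2 * Y k ^ 3)) := by
    filter_upwards [h, h1, h2] with k hk hk1 hk2
    obtain ⟨a1, a2, a3, a4, -, -, a7, a8, a9⟩ := hk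
    have m1 := reduce_pos_of_mem hk1.1
    have m2 := reduce_pos_of_mem hk2.1
    refine ⟨a1, a2, a3, a4, hk1.1, hk2.1, (reduce_log_le hs1 m1 he hk1.2).trans a7,
      (reduce_log_le hs2 m2 he hk2.2).trans a8, le_trans ?_ a9⟩
    have a1' : (0 : ℝ) < x k := by exact_mod_cast a1
    have a2' : (0 : ℝ) < Y k := by exact_mod_cast a2
    have m1' : (0 : ℝ) < M1 k := by exact_mod_cast m1
    have m2' : (0 : ℝ) < M2 k := by exact_mod_cast m2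
    have e1 : ((x k * Y k) ^ e * N2 k / N1 k : ℝ) / θ =
        ((x k * Y k * M2 k / M1 k : ℝ) / θ') ^ e := by
      rw [div_pow, hθ'e, hk1.2, hk2.2]
      push_cast
      rw [div_pow, mul_pow (x k * Y k : ℝ)]
      field_simp
    rw [e1]
    exact reduce_abs_le (by positivity) he
  obtain ⟨d, H, hH, hrel⟩ := main_step S σ hσ θ' hθ' hθ'0 A ε hε U x Y W M1 M2 hn hall
  exact curve_step S σ hσ A U x Y W M1 M2 hn
    (hall.mono fun k hk => ⟨hk.1, hk.2.1, hk.2.2.1, hk.2.2.2.1, hk.2.2.2.2.1, hk.2.2.2.2.2.1,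
      hk.2.2.2.2.2.2.1, hk.2.2.2.2.2.2.2.1⟩) d H hH hrel

theorem reduce_exp_small (C δ : ℝ) (hδ : 0 < δ) :
    ∀ᶠ n : ℝ in atTop, C * exp (-(δ * log n)) ≤ 1 / 2 := by
  have h1 : Tendsto (fun n : ℝ => δ * log n) atTop atTop :=
    Tendsto.const_mul_atTop hδ tendsto_log_atTop
  have h2 : Tendsto (fun n : ℝ => C * exp (-(δ * log n))) atTop (nhds (C * 0)) :=
    (tendsto_exp_neg_atTop_nhds_zero.comp h1).const_mul C
  rw [mul_zero] at h2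
  exact h2.eventually (ge_mem_nhds (by norm_num))

theorem reduce_ratio (c : ℤ) (σ : ℝ) (hσ : σ = 1 ∨ σ = -1) :
    ∃ C : ℝ, 0 ≤ C ∧ ∀ᶠ n : ℝ in atTop, |(n / (n + σ)) ^ c - 1| ≤ C / n := by
  obtain ⟨C, hC⟩ := (hasDerivAt_zpow c (1 : ℝ) (Or.inl one_ne_zero)).isBigO_sub.bound
  have hb : ∀ᶠ n : ℝ in atTop, |n / (n + σ) - 1| ≤ 2 / n := by
    filter_upwards [eventually_ge_atTop 2] with n hn
    have h0 : 0 < n + σ := by rcases hσ with h | h <;> linarith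
    have h1 : n / (n + σ) - 1 = -σ / (n + σ) := by field_simp; ring
    have h2 : |σ| = 1 := by rcases hσ with h | h <;> simp [h]
    rw [h1, abs_div, abs_neg, h2, abs_of_pos h0, div_le_div_iff₀ h0 (by linarith)]
    rcases hσ with h | h <;> linarith
  have ht : Tendsto (fun n : ℝ => n / (n + σ)) atTop (nhds 1) := by
    rw [tendsto_iff_norm_sub_tendsto_zero]
    refine squeeze_zero' (Eventually.of_forall fun n => norm_nonneg _) hb ?_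
    exact tendsto_const_nhds.div_atTop tendsto_id
  refine ⟨2 * |C|, by positivity, ?_⟩
  filter_upwards [ht.eventually hC, hb] with n h1 h2
  rw [one_zpow, Real.norm_eq_abs, Real.norm_eq_abs] at h1
  calc |(n / (n + σ)) ^ c - 1| ≤ C * |n / (n + σ) - 1| := h1
    _ ≤ |C| * |n / (n + σ) - 1| := by gcongr; exact le_abs_self C
    _ ≤ |C| * (2 / n) := by gcongr
    _ = 2 * |C| / n := by ring

theorem reduce_err (c : ℤ) (σ : ℝ) (hσ : σ = 1 ∨ σ = -1) (ε : ℝ) (hε : 0 < ε) :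
    ∀ᶠ n : ℝ in atTop, ∀ μ s : ℝ, s ≤ log n / 24 → |μ - 1| ≤ exp (-s - ε * log n) →
      |μ * (n / (n + σ)) ^ c - 1| ≤ exp (-s - min ε (1 / 2) / 2 * log n) := by
  obtain ⟨C, hC0, hC⟩ := reduce_ratio c σ hσ
  filter_upwards [hC, eventually_ge_atTop 1, eventually_ge_atTop C,
    reduce_exp_small 2 (ε / 2) (by linarith), reduce_exp_small C (1 / 2) (by norm_num)]
    with n h1 hn1 hnC h2 h3 μ s hs hμ
  have hn0 : 0 < n := by linarith
  have hq : 0 ≤ log n := log_nonneg hn1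
  set ν := (n / (n + σ)) ^ c
  set q := log n with hqdef
  set ε' := min ε (1 / 2) / 2 with hε'
  have e1 : ε' ≤ ε / 2 := by have := min_le_left ε (1 / 2); linarith
  have e2 : ε' ≤ 1 / 4 := by have := min_le_right ε (1 / 2); linarith
  have hν : |ν| ≤ 2 := by
    have a1 : C / n ≤ 1 := (div_le_one hn0).2 hnC
    have a2 := abs_sub_abs_le_abs_sub ν 1
    rw [abs_one] at a2
    linarith
  have b1 : |μ * ν - 1| ≤ |μ - 1| * |ν| + |ν - 1| := by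
    rw [← abs_mul]
    refine le_trans (le_of_eq ?_) (abs_add_le _ _)
    congr 1; ring
  have b2 : |μ - 1| * |ν| ≤ exp (-s - ε' * q) / 2 := by
    calc |μ - 1| * |ν| ≤ exp (-s - ε * q) * 2 := by gcongr
      _ ≤ exp (-s - ε' * q + -(ε / 2 * q)) * 2 := by
          gcongr
          nlinarith
      _ = exp (-s - ε' * q) * (2 * exp (-(ε / 2 * q))) := by rw [exp_add]; ring
      _ ≤ exp (-s - ε' * q) * (1 / 2) := by gcongr
      _ = exp (-s - ε' * q) / 2 := by ring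
  have b3 : |ν - 1| ≤ exp (-s - ε' * q) / 2 := by
    have a1 : C / n = C * exp (-q) := by
      rw [hqdef, exp_neg, exp_log hn0, div_eq_mul_inv]
    calc |ν - 1| ≤ C * exp (-q) := a1 ▸ h1
      _ ≤ C * exp (-s - ε' * q + -(1 / 2 * q)) := by
          gcongr
          nlinarith
      _ = exp (-s - ε' * q) * (C * exp (-(1 / 2 * q))) := by rw [exp_add]; ring
      _ ≤ exp (-s - ε' * q) * (1 / 2) := by gcongr
      _ = exp (-s - ε' * q) / 2 := by ring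
  linarith

theorem reduce_inv (ε : ℝ) (hε : 0 < ε) :
    ∀ᶠ n : ℝ in atTop, ∀ μ s : ℝ, 0 ≤ s → |μ - 1| ≤ exp (-s - ε * log n) →
      |μ⁻¹ - 1| ≤ exp (-s - ε / 2 * log n) := by
  filter_upwards [reduce_exp_small 1 ε hε, reduce_exp_small 1 (ε / 2) (by linarith)]
    with n h1 h2 μ s hs hμ
  rw [one_mul] at h1 h2
  have a1 : exp (-s - ε * log n) ≤ 1 / 2 := le_trans (by gcongr; linarith) h1
  have a2 : 1 / 2 ≤ μ := by
    have := (abs_le.1 (hμ.trans a1)).1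
    linarith
  have a3 : 0 < μ := by linarith
  have a4 : μ⁻¹ - 1 = -(μ - 1) * μ⁻¹ := by field_simp; ring
  have a5 : μ⁻¹ ≤ 2 := by
    rw [inv_le_comm₀ a3 two_pos]
    linarith
  rw [a4, abs_mul, abs_neg, abs_of_pos (inv_pos.2 a3)]
  calc |μ - 1| * μ⁻¹ ≤ exp (-s - ε * log n) * 2 := by gcongr
    _ = exp (-s - ε / 2 * log n) * (2 * exp (-(ε / 2 * log n))) := by
        rw [show -s - ε * log n = -s - ε / 2 * log n + -(ε / 2 * log n) by ring, exp_add]; ring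
    _ ≤ exp (-s - ε / 2 * log n) * 1 := by gcongr; linarith
    _ = _ := mul_one _

theorem reduce_tendsto {U : Filter ℕ} {x Y : ℕ → ℕ}
    (hn : Tendsto (fun k => x k ^ 2 * Y k ^ 3) U atTop) :
    Tendsto (fun k => (x k : ℝ) ^ 2 * (Y k : ℝ) ^ 3) U atTop := by
  have := (tendsto_natCast_atTop_atTop (R := ℝ)).comp hn
  refine this.congr fun k => ?_
  simp

theorem reduce_ab {x Y : ℕ} (hx : 0 < x) (hY : 0 < Y) :
    0 ≤ log (x : ℝ) * log (Y : ℝ) / log ((x : ℝ) ^ 2 * (Y : ℝ) ^ 3) ∧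
    log (x : ℝ) * log (Y : ℝ) / log ((x : ℝ) ^ 2 * (Y : ℝ) ^ 3) ≤
      log ((x : ℝ) ^ 2 * (Y : ℝ) ^ 3) / 24 := by
  have hx' : (0 : ℝ) < x := by exact_mod_cast hx
  have hY' : (0 : ℝ) < Y := by exact_mod_cast hY
  have h1 : 0 ≤ log (x : ℝ) := log_natCast_nonneg x
  have h2 : 0 ≤ log (Y : ℝ) := log_natCast_nonneg Y
  have h3 : log ((x : ℝ) ^ 2 * (Y : ℝ) ^ 3) = 2 * log (x : ℝ) + 3 * log (Y : ℝ) := by
    rw [log_mul (by positivity) (by positivity), log_pow, log_pow]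
    norm_num
  rw [h3]
  refine ⟨by positivity, ?_⟩
  rcases (show 0 ≤ 2 * log (x : ℝ) + 3 * log (Y : ℝ) by positivity).eq_or_lt with h | h
  · rw [← h]
    simp
  · rw [div_le_div_iff₀ h (by norm_num)]
    nlinarith [sq_nonneg (2 * log (x : ℝ) - 3 * log (Y : ℝ))]

theorem reduce_pos (S : Finset ℕ) (σ : ℤ) (hσ : σ = 1 ∨ σ = -1) (a b : ℤ)
    (hab : 0 < 3 * a - 2 * b) (θ : ℝ)
    (hθ : IsAlgebraic ℚ θ) (hθ0 : 0 < θ) (A ε : ℝ) (hε : 0 < ε) (U : Ultrafilter ℕ)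
    (x Y W w1 w2 : ℕ → ℕ) (hn : Tendsto (fun k => x k ^ 2 * Y k ^ 3) U atTop)
    (h : ∀ᶠ k in U, 0 < x k ∧ 0 < Y k ∧ (W k : ℤ) = x k ^ 2 * Y k ^ 3 + σ ∧
      W k ∈ Nat.factoredNumbers S ∧ w1 k ∈ Nat.factoredNumbers S ∧
      w2 k ∈ Nat.factoredNumbers S ∧
      log (w1 k) ≤ A * log (x k ^ 2 * Y k ^ 3) ∧ log (w2 k) ≤ A * log (x k ^ 2 * Y k ^ 3) ∧
      |((x k : ℝ) ^ a * (Y k : ℝ) ^ b) / (θ * (w1 k / w2 k)) - 1| ≤
        exp (-(log (x k) * log (Y k) / log (x k ^ 2 * Y k ^ 3)) - ε * log (x k ^ 2 * Y k ^ 3))) :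
    False := by
  obtain ⟨e, he⟩ : ∃ e : ℕ, (e : ℤ) = 3 * a - 2 * b := ⟨_, Int.toNat_of_nonneg hab.le⟩
  have he0 : 0 < e := by omega
  obtain ⟨i, j, hij⟩ : ∃ i j : ℕ, (i : ℤ) - j = a - b :=
    ⟨(a - b).toNat, (-(a - b)).toNat, Int.toNat_sub_toNat_neg _⟩
  have hσ' : (σ : ℝ) = 1 ∨ (σ : ℝ) = -1 := by
    rcases hσ with h | h <;> simp [h]
  have hnR := reduce_tendsto hn
  refine reduce_core S σ hσ e he0 θ hθ hθ0 (A + 2 * (i + j)) (min ε (1 / 2) / 2)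
    (half_pos (lt_min hε (by norm_num))) U x Y W (fun k => w1 k * W k ^ i)
    (fun k => w2 k * W k ^ j) hn ?_
  filter_upwards [h, hnR.eventually (reduce_err (a - b) σ hσ' ε hε),
    hnR.eventually (eventually_ge_atTop 2)] with k hk herr hn2
  obtain ⟨a1, a2, a3, a4, a5, a6, a7, a8, a9⟩ := hk
  have a1' : (0 : ℝ) < x k := by exact_mod_cast a1
  have a2' : (0 : ℝ) < Y k := by exact_mod_cast a2
  have b4 : (0 : ℝ) < W k := by exact_mod_cast reduce_pos_of_mem a4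
  have b5 : (0 : ℝ) < w1 k := by exact_mod_cast reduce_pos_of_mem a5
  have b6 : (0 : ℝ) < w2 k := by exact_mod_cast reduce_pos_of_mem a6
  have hW : (W k : ℝ) = (x k : ℝ) ^ 2 * (Y k : ℝ) ^ 3 + σ := by exact_mod_cast a3
  set n : ℝ := (x k : ℝ) ^ 2 * (Y k : ℝ) ^ 3 with hndef
  have hq : 0 ≤ log n := log_nonneg (by linarith)
  have hlW : log (W k : ℝ) ≤ 2 * log n := by
    have : log (n ^ 2) = 2 * log n := by rw [log_pow]; norm_num
    rw [← this]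
    refine log_le_log b4 ?_
    rw [hW]
    rcases hσ' with h | h <;> nlinarith
  have hi0 : (0 : ℝ) ≤ i := Nat.cast_nonneg i
  have hj0 : (0 : ℝ) ≤ j := Nat.cast_nonneg j
  refine ⟨a1, a2, a3, a4, Nat.mul_mem_factoredNumbers a5 (reduce_pow_mem a4 i),
    Nat.mul_mem_factoredNumbers a6 (reduce_pow_mem a4 j), ?_, ?_, ?_⟩
  · push_cast
    rw [log_mul b5.ne' (by positivity), log_pow]
    nlinarith [mul_le_mul_of_nonneg_left hlW hi0, mul_nonneg hj0 hq]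
  · push_cast
    rw [log_mul b6.ne' (by positivity), log_pow]
    nlinarith [mul_le_mul_of_nonneg_left hlW hj0, mul_nonneg hi0 hq]
  · have e1 : ((x k * Y k) ^ e * (w2 k * W k ^ j : ℕ) / (w1 k * W k ^ i : ℕ) : ℝ) / θ =
        ((x k : ℝ) ^ a * (Y k : ℝ) ^ b) / (θ * (w1 k / w2 k)) * (n / (n + σ)) ^ (a - b) := by
      have c1 : (n / (n + σ)) ^ (a - b) = n ^ (a - b) * ((W k : ℝ) ^ j / (W k : ℝ) ^ i) := by
        rw [← hW, div_zpow, ← hij, zpow_sub₀ b4.ne', zpow_natCast, zpow_natCast]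
        field_simp
      have c2 : ((x k : ℝ) * Y k) ^ e = (x k : ℝ) ^ a * (Y k : ℝ) ^ b * n ^ (a - b) := by
        rw [← zpow_natCast, he, hndef, mul_zpow, mul_zpow, ← zpow_natCast, ← zpow_natCast,
          ← zpow_mul, ← zpow_mul, mul_mul_mul_comm, ← zpow_add₀ a1'.ne', ← zpow_add₀ a2'.ne']
        congr 2 <;> push_cast <;> ring
      rw [c1, c2]
      push_cast
      field_simp
    rw [e1]
    exact herr _ _ (reduce_ab a1 a2).2 a9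

theorem reduce_seq (S : Finset ℕ) (σ : ℤ) (hσ : σ = 1 ∨ σ = -1) (a b : ℤ)
    (hab : 3 * a ≠ 2 * b) (θ : ℝ)
    (hθ : IsAlgebraic ℚ θ) (hθ0 : 0 < θ) (A ε : ℝ) (hε : 0 < ε) (U : Ultrafilter ℕ)
    (x Y W w1 w2 : ℕ → ℕ) (hn : Tendsto (fun k => x k ^ 2 * Y k ^ 3) U atTop)
    (h : ∀ᶠ k in U, 0 < x k ∧ 0 < Y k ∧ (W k : ℤ) = x k ^ 2 * Y k ^ 3 + σ ∧
      W k ∈ Nat.factoredNumbers S ∧ w1 k ∈ Nat.factoredNumbers S ∧
      w2 k ∈ Nat.factoredNumbers S ∧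
      log (w1 k) ≤ A * log (x k ^ 2 * Y k ^ 3) ∧ log (w2 k) ≤ A * log (x k ^ 2 * Y k ^ 3) ∧
      |((x k : ℝ) ^ a * (Y k : ℝ) ^ b) / (θ * (w1 k / w2 k)) - 1| ≤
        exp (-(log (x k) * log (Y k) / log (x k ^ 2 * Y k ^ 3)) - ε * log (x k ^ 2 * Y k ^ 3))) :
    False := by
  rcases lt_or_gt_of_ne hab with hlt | hgt
  · refine reduce_pos S σ hσ (-a) (-b) (by omega) θ⁻¹ hθ.inv (inv_pos.2 hθ0) A (ε / 2)
      (half_pos hε) U x Y W w2 w1 hn ?_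
    filter_upwards [h, (reduce_tendsto hn).eventually (reduce_inv ε hε)] with k hk hinv
    obtain ⟨a1, a2, a3, a4, a5, a6, a7, a8, a9⟩ := hk
    refine ⟨a1, a2, a3, a4, a6, a5, a8, a7, ?_⟩
    have e1 : ((x k : ℝ) ^ (-a) * (Y k : ℝ) ^ (-b)) / (θ⁻¹ * (w2 k / w1 k)) =
        (((x k : ℝ) ^ a * (Y k : ℝ) ^ b) / (θ * (w1 k / w2 k)))⁻¹ := by
      rw [zpow_neg, zpow_neg, ← mul_inv, ← inv_div (w1 k : ℝ), ← mul_inv, inv_div_inv, inv_div]
    rw [e1]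
    exact hinv _ _ (reduce_ab a1 a2).1 a9
  · exact reduce_pos S σ hσ a b (by omega) θ hθ hθ0 A ε hε U x Y W w1 w2 hn h

theorem reduce_mem {t m : ℕ} (hm : m ≠ 0) (h : ∀ q ∈ Nat.primeFactors m, q ≤ t) :
    m ∈ Nat.factoredNumbers (Finset.range (t + 1)) := by
  rw [Nat.mem_factoredNumbers']
  intro p hp hd
  exact Finset.mem_range.2 (Nat.lt_succ_of_le (h p (Nat.mem_primeFactors.2 ⟨hp, hd, hm⟩)))

theorem reduce_cofinite (f : ℕ → ℤ × ℤ) (hf : Function.Injective f)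
    (h : ∀ k, (f k).1 ≠ 0 ∧ (f k).2 ≠ 0) :
    Tendsto (fun k => (f k).1.natAbs ^ 2 * (f k).2.natAbs ^ 3) cofinite atTop := by
  rw [tendsto_atTop]
  intro N
  rw [eventually_cofinite]
  refine (((Set.finite_Icc (-(N : ℤ)) N).prod (Set.finite_Icc (-(N : ℤ)) N)).preimage
    hf.injOn).subset fun k hk => ?_
  have h1 : 0 < (f k).1.natAbs := Int.natAbs_pos.2 (h k).1
  have h2 : 0 < (f k).2.natAbs := Int.natAbs_pos.2 (h k).2
  simp only [Set.mem_ofPred_eq, not_le] at hk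
  have h3 : (f k).1.natAbs ≤ (f k).1.natAbs ^ 2 * (f k).2.natAbs ^ 3 :=
    (Nat.le_self_pow two_ne_zero _).trans (Nat.le_mul_of_pos_right _ (by positivity))
  have h4 : (f k).2.natAbs ≤ (f k).1.natAbs ^ 2 * (f k).2.natAbs ^ 3 :=
    (Nat.le_self_pow three_ne_zero _).trans (Nat.le_mul_of_pos_left _ (by positivity))
  simp only [Set.mem_preimage, Set.mem_prod, Set.mem_Icc]
  omega

theorem near_units (t : ℕ) (a b : ℤ) (hab : 3 * a ≠ 2 * b) (θ : ℝ) (hθ : IsAlgebraic ℚ θ)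
    (hθ0 : 0 < θ) (A ε : ℝ) (hε : 0 < ε) :
    {p : ℤ × ℤ | p.1 ≠ 0 ∧ p.2 ≠ 0 ∧
      (∀ q ∈ Nat.primeFactors (1 + p.1 ^ 2 * p.2 ^ 3).natAbs, q ≤ t) ∧
      ∃ w₁ w₂ : ℕ, w₁ ≠ 0 ∧ w₂ ≠ 0 ∧ (∀ q ∈ Nat.primeFactors (w₁ * w₂), q ≤ t) ∧
        (w₁ * w₂ : ℝ) ≤ (|(p.1 : ℝ)| ^ 2 * |(p.2 : ℝ)| ^ 3) ^ A ∧
        |(|(p.1 : ℝ)| ^ a * |(p.2 : ℝ)| ^ b) / (θ * (w₁ / w₂)) - 1| ≤
          exp (-(log |(p.1 : ℝ)| * log |(p.2 : ℝ)| / log (|(p.1 : ℝ)| ^ 2 * |(p.2 : ℝ)| ^ 3)) -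
            ε * log (|(p.1 : ℝ)| ^ 2 * |(p.2 : ℝ)| ^ 3))}.Finite := by
  by_contra hinf
  have hinf' := Set.not_finite.1 hinf
  obtain ⟨f, hf, hmem⟩ : ∃ f : ℕ → ℤ × ℤ, Function.Injective f ∧ ∀ k, f k ∈ _ :=
    ⟨fun k => hinf'.natEmbedding _ k,
      Subtype.val_injective.comp (hinf'.natEmbedding _).injective,
      fun k => (hinf'.natEmbedding _ k).2⟩
  simp only [Set.mem_ofPred_eq] at hmem
  choose h1 h2 h3 w1 w2 h4 h5 h6 h7 h8 using hmem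
  have hn : Tendsto (fun k => (f k).1.natAbs ^ 2 * (f k).2.natAbs ^ 3) (hyperfilter ℕ) atTop :=
    (reduce_cofinite f hf fun k => ⟨h1 k, h2 k⟩).mono_left hyperfilter_le_cofinite
  have key : ∀ σ : ℤ, (σ = 1 ∨ σ = -1) →
      (∀ᶠ k in hyperfilter ℕ, (f k).2 = σ * (f k).2.natAbs) → False := by
    intro σ hσ hs
    refine reduce_seq (Finset.range (t + 1)) σ hσ a b hab θ hθ hθ0 A ε hε (hyperfilter ℕ)
      (fun k => (f k).1.natAbs) (fun k => (f k).2.natAbs)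
      (fun k => (1 + (f k).1 ^ 2 * (f k).2 ^ 3).natAbs) w1 w2 hn ?_
    filter_upwards [hs, hn.eventually (eventually_ge_atTop 2)] with k hk hk2
    have c1 : (((f k).1.natAbs : ℕ) : ℝ) = |((f k).1 : ℝ)| := by
      rw [Nat.cast_natAbs, Int.cast_abs]
    have c2 : (((f k).2.natAbs : ℕ) : ℝ) = |((f k).2 : ℝ)| := by
      rw [Nat.cast_natAbs, Int.cast_abs]
    have hk2' : (2 : ℤ) ≤ ((f k).1.natAbs : ℤ) ^ 2 * ((f k).2.natAbs : ℤ) ^ 3 := by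
      exact_mod_cast hk2
    have hW : (((1 + (f k).1 ^ 2 * (f k).2 ^ 3).natAbs : ℕ) : ℤ) =
        ((f k).1.natAbs : ℤ) ^ 2 * ((f k).2.natAbs : ℤ) ^ 3 + σ := by
      have d1 : 1 + (f k).1 ^ 2 * (f k).2 ^ 3 =
          σ * (((f k).1.natAbs : ℤ) ^ 2 * ((f k).2.natAbs : ℤ) ^ 3 + σ) := by
        rw [Int.natAbs_sq]
        generalize ((f k).2.natAbs : ℤ) = m at hk ⊢
        rw [hk]
        rcases hσ with h | h <;> rw [h] <;> ring
      rw [d1, Int.natCast_natAbs, abs_mul]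
      rcases hσ with h | h <;> rw [h]
      · rw [abs_one, one_mul, abs_of_nonneg (by linarith)]
      · rw [abs_neg, abs_one, one_mul, abs_of_nonneg (by linarith)]
    have hW0 : (1 + (f k).1 ^ 2 * (f k).2 ^ 3).natAbs ≠ 0 := by
      intro h0
      rw [h0] at hW
      rcases hσ with h | h <;> rw [h] at hW <;> push_cast at hW hk2' <;> linarith
    have hw := reduce_mem (mul_ne_zero (h4 k) (h5 k)) (h6 k)
    have p1 : (1 : ℝ) ≤ w1 k := by exact_mod_cast Nat.pos_of_ne_zero (h4 k)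
    have p2 : (1 : ℝ) ≤ w2 k := by exact_mod_cast Nat.pos_of_ne_zero (h5 k)
    have hpos : 0 < |((f k).1 : ℝ)| ^ 2 * |((f k).2 : ℝ)| ^ 3 := by
      have q1 : ((f k).1 : ℝ) ≠ 0 := by exact_mod_cast h1 k
      have q2 : ((f k).2 : ℝ) ≠ 0 := by exact_mod_cast h2 k
      positivity
    have hlog : log ((w1 k : ℝ) * w2 k) ≤ A * log (|((f k).1 : ℝ)| ^ 2 * |((f k).2 : ℝ)| ^ 3) := by
      rw [← log_rpow hpos]
      exact log_le_log (by positivity) (h7 k)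
    simp only [c1, c2]
    refine ⟨Int.natAbs_pos.2 (h1 k), Int.natAbs_pos.2 (h2 k), hW, reduce_mem hW0 (h3 k),
      Nat.mem_factoredNumbers_of_dvd hw (Dvd.intro _ rfl),
      Nat.mem_factoredNumbers_of_dvd hw (Dvd.intro_left _ rfl), le_trans ?_ hlog,
      le_trans ?_ hlog, h8 k⟩
    · exact log_le_log (by positivity) (by nlinarith)
    · exact log_le_log (by positivity) (by nlinarith)
  have hor : ∀ᶠ k in hyperfilter ℕ,
      (f k).2 = 1 * (f k).2.natAbs ∨ (f k).2 = -1 * (f k).2.natAbs :=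
    Eventually.of_forall fun k => by omega
  rcases Ultrafilter.eventually_or.1 hor with h | h
  · exact key 1 (Or.inl rfl) h
  · exact key (-1) (Or.inr rfl) h

end Pool.Agent.Lib.MP_6aa000_nt
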