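import Pool.Agent.Lib.MP_6aa000_nt.Reduce

/-! Neighbourhoods of the curves `|y| = θ |x| ^ r`. -/

open Filter Real Polynomial

namespace Pool.Agent.Lib.MP_6aa000_nt

theorem region_pow_sub_one (q : ℕ) (z : ℝ) (h0 : 0 ≤ z) (h2 : z ≤ 2) :
    |z ^ q - 1| ≤ 3 ^ q * |z - 1| := by
  induction q with
  | zero => simp
  | succ n ih =>
    have e : z ^ (n + 1) - 1 = z * (z ^ n - 1) + (z - 1) := by ring
    have h1 : (1 : ℝ) ≤ 3 ^ n := one_le_pow₀ (by norm_num)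
    have ha : 0 ≤ |z - 1| := abs_nonneg _
    have hb : 0 ≤ |z ^ n - 1| := abs_nonneg _
    calc |z ^ (n + 1) - 1| ≤ |z * (z ^ n - 1)| + |z - 1| := by rw [e]; exact abs_add_le _ _
      _ = z * |z ^ n - 1| + |z - 1| := by rw [abs_mul, abs_of_nonneg h0]
      _ ≤ 2 * (3 ^ n * |z - 1|) + 3 ^ n * |z - 1| := by
          have h3 : z * |z ^ n - 1| ≤ 2 * (3 ^ n * |z - 1|) :=
            le_trans (mul_le_mul_of_nonneg_right h2 hb) (by linarith)
          have h4 : |z - 1| ≤ 3 ^ n * |z - 1| := by nlinarith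
          linarith
      _ = 3 ^ (n + 1) * |z - 1| := by ring

theorem region_ratio (r c l m : ℝ) (hr : 0 < r) (hc : 0 ≤ c) (hl : 0 < l) (hm : 0 ≤ m)
    (hml : m ≤ r * l + c) : l * m / (2 * l + 3 * m) ≤ r / (2 + 3 * r) * l + c := by
  have h1 : 0 < 2 * l + 3 * m := by positivity
  have h2 : 0 < 2 + 3 * r := by positivity
  rw [div_le_iff₀ h1]
  have e : (r / (2 + 3 * r) * l + c) * (2 * l + 3 * m) =
      (r * l * (2 * l + 3 * m) + c * (2 + 3 * r) * (2 * l + 3 * m)) / (2 + 3 * r) := by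
    field_simp
  rw [e, le_div_iff₀ h2]
  have h3 : l * m ≤ l * (r * l + c) := mul_le_mul_of_nonneg_left hml hl.le
  have h4 : 0 ≤ c * l := by positivity
  have h5 : 0 ≤ c * m := by positivity
  have h6 : 0 ≤ c * r * l := by positivity
  have h7 : 0 ≤ c * r * m := by positivity
  nlinarith

theorem region_key (r θ η : ℝ) (q : ℕ) (hr : 0 < r) (hθ0 : 0 < θ) (hη : r / (2 + 3 * r) < η) :
    ∃ ε : ℝ, 0 < ε ∧ ∃ X0 : ℝ, 1 ≤ X0 ∧ ∀ X Y : ℝ, X0 < X → 1 ≤ Y →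
      abs (Y - θ * X ^ r) ≤ X ^ (r - η) →
      |(Y / (θ * X ^ r)) ^ q - 1| ≤
        exp (-(log X * log Y / log (X ^ 2 * Y ^ 3)) - ε * log (X ^ 2 * Y ^ 3)) := by
  have h2 : 0 < 2 + 3 * r := by positivity
  have hη0 : 0 < η := lt_trans (by positivity) hη
  set δ := η - r / (2 + 3 * r) with hδ
  have hδ0 : 0 < δ := by linarith
  set ε := δ / (2 * (2 + 3 * r)) with hε
  have hε0 : 0 < ε := by positivity
  set c := |log (2 * θ)| with hc
  have hc0 : 0 ≤ c := abs_nonneg _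
  set K := |log (3 ^ q / θ)| + c + 3 * c * ε with hK
  have hK0 : 0 ≤ K := by positivity
  set L0 := 2 * K / δ + |log θ| / η with hL0
  have hL00 : 0 ≤ L0 := by positivity
  refine ⟨ε, hε0, exp L0, one_le_exp hL00, fun X Y hX hY h => ?_⟩
  have hX1 : 1 < X := lt_of_le_of_lt (one_le_exp hL00) hX
  have hX0 : 0 < X := by linarith
  have hY0 : 0 < Y := by linarith
  set l := log X with hl
  set m := log Y with hm
  have hlL : L0 < l := by
    have := log_lt_log (exp_pos L0) hX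
    rwa [log_exp] at this
  have hl0 : 0 < l := lt_of_le_of_lt hL00 hlL
  have hm0 : 0 ≤ m := log_nonneg hY
  have hXr : 0 < X ^ r := rpow_pos_of_pos hX0 r
  have hD : 0 < θ * X ^ r := by positivity
  set z := Y / (θ * X ^ r) with hz
  have hz0 : 0 < z := by positivity
  have hXη : X ^ (-η) = exp (-(η * l)) := by
    rw [rpow_def_of_pos hX0]; congr 1; ring
  have hz1 : |z - 1| ≤ exp (-(η * l)) / θ := by
    have e : z - 1 = (Y - θ * X ^ r) / (θ * X ^ r) := by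
      rw [hz]; field_simp
    rw [e, abs_div, abs_of_pos hD, div_le_iff₀ hD]
    refine h.trans (le_of_eq ?_)
    rw [← hXη, sub_eq_add_neg, rpow_add hX0]
    field_simp
  have hsmall : exp (-(η * l)) ≤ θ := by
    have h1 : |log θ| / η ≤ l := by
      have : 0 ≤ 2 * K / δ := by positivity
      linarith
    rw [div_le_iff₀ hη0] at h1
    have h3 : -(η * l) ≤ log θ := by
      have := neg_abs_le (log θ)
      nlinarith
    calc exp (-(η * l)) ≤ exp (log θ) := exp_le_exp.2 h3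
      _ = θ := exp_log hθ0
  have hz2 : z ≤ 2 := by
    have h1 : exp (-(η * l)) / θ ≤ 1 := (div_le_one hθ0).2 hsmall
    have := le_abs_self (z - 1)
    linarith
  have hml : m ≤ r * l + c := by
    have h1 : Y ≤ 2 * θ * X ^ r := by
      rw [hz, div_le_iff₀ hD] at hz2
      linarith
    have h3 : m ≤ log (2 * θ * X ^ r) := log_le_log hY0 h1
    rw [log_mul (by positivity) hXr.ne', log_rpow hX0] at h3
    have := le_abs_self (log (2 * θ))
    linarith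
  have hlog : log (X ^ 2 * Y ^ 3) = 2 * l + 3 * m := by
    rw [log_mul (by positivity) (by positivity), log_pow, log_pow]
    push_cast; ring
  rw [hlog]
  have hrat := region_ratio r c l m hr hc0 hl0 hm0 hml
  have hεb : ε * (2 * l + 3 * m) ≤ δ / 2 * l + 3 * c * ε := by
    have h1 : 2 * l + 3 * m ≤ (2 + 3 * r) * l + 3 * c := by nlinarith
    have h3 : ε * (2 + 3 * r) = δ / 2 := by rw [hε]; field_simp
    calc ε * (2 * l + 3 * m) ≤ ε * ((2 + 3 * r) * l + 3 * c) :=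
          mul_le_mul_of_nonneg_left h1 hε0.le
      _ = ε * (2 + 3 * r) * l + 3 * c * ε := by ring
      _ = δ / 2 * l + 3 * c * ε := by rw [h3]
  have hKl : K ≤ δ / 2 * l := by
    have h1 : 2 * K / δ ≤ l := by
      have : 0 ≤ |log θ| / η := by positivity
      linarith
    rw [div_le_iff₀ hδ0] at h1
    nlinarith
  have h3q : (0 : ℝ) < 3 ^ q / θ := by positivity
  calc |z ^ q - 1| ≤ 3 ^ q * |z - 1| := region_pow_sub_one q z hz0.le hz2
    _ ≤ 3 ^ q * (exp (-(η * l)) / θ) := mul_le_mul_of_nonneg_left hz1 (by positivity)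
    _ = exp (log (3 ^ q / θ) + -(η * l)) := by
        rw [exp_add, exp_log h3q]; ring
    _ ≤ exp (-(l * m / (2 * l + 3 * m)) - ε * (2 * l + 3 * m)) := by
        apply exp_le_exp.2
        have h1 := le_abs_self (log (3 ^ q / θ))
        have h4 : η * l = δ * l + r / (2 + 3 * r) * l := by rw [hδ]; ring
        linarith

theorem region_box (B : ℝ) :
    {p : ℤ × ℤ | |(p.1 : ℝ)| ≤ B ∧ |(p.2 : ℝ)| ≤ B}.Finite := by
  obtain ⟨N, hN⟩ := exists_int_ge B
  refine ((Set.finite_Icc (-N) N).prod (Set.finite_Icc (-N) N)).subset ?_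
  rintro ⟨x, y⟩ ⟨hx, hy⟩
  have hx' : |x| ≤ N := by exact_mod_cast (hx.trans hN)
  have hy' : |y| ≤ N := by exact_mod_cast (hy.trans hN)
  exact ⟨abs_le.1 hx', abs_le.1 hy'⟩

theorem near_curve (t : ℕ) (r : ℚ) (hr : 0 < r) (θ : ℝ) (hθ : IsAlgebraic ℚ θ) (hθ0 : 0 < θ)
    (η : ℝ) (hη : (r : ℝ) / (2 + 3 * r) < η) :
    {p : ℤ × ℤ | p.1 ≠ 0 ∧ p.2 ≠ 0 ∧
      (∀ q ∈ Nat.primeFactors (1 + p.1 ^ 2 * p.2 ^ 3).natAbs, q ≤ t) ∧
      abs (|(p.2 : ℝ)| - θ * |(p.1 : ℝ)| ^ (r : ℝ)) ≤ |(p.1 : ℝ)| ^ ((r : ℝ) - η)}.Finite := by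
  have hr' : (0 : ℝ) < r := by exact_mod_cast hr
  have hη0 : 0 < η := lt_trans (by positivity) hη
  obtain ⟨ε, hε, X0, hX0, hkey⟩ := region_key r θ η r.den hr' hθ0 hη
  have hnum : 0 < r.num := Rat.num_pos.2 hr
  have hab : 3 * (-r.num) ≠ 2 * (r.den : ℤ) := by
    have : (0 : ℤ) ≤ r.den := Int.natCast_nonneg _
    omega
  have hfin := near_units t (-r.num) r.den hab (θ ^ r.den) (hθ.pow _) (pow_pos hθ0 _) 0 ε hε
  refine (hfin.union (region_box (X0 + (θ + 1) * X0 ^ (r : ℝ)))).subset ?_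
  rintro ⟨x, y⟩ ⟨hx, hy, hsm, h⟩
  simp only at hx hy hsm h
  have hx1 : (1 : ℝ) ≤ |(x : ℝ)| := by exact_mod_cast Int.one_le_abs hx
  have hy1 : (1 : ℝ) ≤ |(y : ℝ)| := by exact_mod_cast Int.one_le_abs hy
  have hX : (0 : ℝ) < |(x : ℝ)| := by linarith
  by_cases hc : X0 < |(x : ℝ)|
  · left
    refine ⟨hx, hy, hsm, 1, 1, one_ne_zero, one_ne_zero, by simp, by simp, ?_⟩
    have hk := hkey _ _ hc hy1 h
    have e1 : (|(x : ℝ)| ^ (r : ℝ)) ^ r.den = |(x : ℝ)| ^ r.num := by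
      rw [← rpow_natCast, ← rpow_mul hX.le, ← rpow_intCast]
      congr 1
      exact_mod_cast Rat.mul_den_eq_num r
    have e2 : (|(y : ℝ)| / (θ * |(x : ℝ)| ^ (r : ℝ))) ^ r.den =
        |(x : ℝ)| ^ (-r.num) * |(y : ℝ)| ^ (r.den : ℤ) /
          (θ ^ r.den * (((1 : ℕ) : ℝ) / ((1 : ℕ) : ℝ))) := by
      rw [div_pow, mul_pow, e1, zpow_neg, zpow_natCast]
      have : |(x : ℝ)| ^ r.num ≠ 0 := zpow_ne_zero _ hX.ne'
      push_cast
      field_simp
    rw [e2] at hk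
    exact hk
  · right
    push Not at hc
    have h1 : |(x : ℝ)| ^ (r : ℝ) ≤ X0 ^ (r : ℝ) := rpow_le_rpow hX.le hc hr'.le
    have h2 : |(x : ℝ)| ^ ((r : ℝ) - η) ≤ |(x : ℝ)| ^ (r : ℝ) :=
      rpow_le_rpow_of_exponent_le hx1 (by linarith)
    have h3 : 0 ≤ X0 ^ (r : ℝ) := rpow_nonneg (by linarith) _
    have h4 := le_abs_self (|(y : ℝ)| - θ * |(x : ℝ)| ^ (r : ℝ))
    have h5 : θ * |(x : ℝ)| ^ (r : ℝ) ≤ θ * X0 ^ (r : ℝ) := mul_le_mul_of_nonneg_left h1 hθ0.le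
    have h6 : 0 ≤ θ * X0 ^ (r : ℝ) := by positivity
    refine ⟨?_, ?_⟩
    · show |(x : ℝ)| ≤ _
      nlinarith
    · show |(y : ℝ)| ≤ _
      nlinarith

end Pool.Agent.Lib.MP_6aa000_nt
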