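import Pool.Agent.Lib.MP_6aa000_nt.Gain

/-! The main step: a good approximation forces the points onto a curve. -/

open Filter Real Polynomial

namespace Pool.Agent.Lib.MP_6aa000_nt

def stJ (w i : ℕ) : ℤ := max ((1 - ((w : ℤ) - i)) / 2) ((2 - ((w : ℤ) - i)) / 3)

def stA (w i : ℕ) : ℕ := ((w : ℤ) - i + 2 * stJ w i).toNat

def stB (w i : ℕ) : ℕ := ((w : ℤ) - i + 3 * stJ w i).toNat

def stE (w l i : ℕ) : ℕ := (stJ w l - stJ w i).toNat

def stM (L M1 M2 i : ℕ) : ℕ := M1 ^ i * M2 ^ (L - i)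

def stPhi (w L x Y M1 M2 i : ℕ) : ℕ := x ^ stA w i * Y ^ stB w i * stM L M1 M2 i

theorem stA_add (w i d : ℕ) : stA w (i + d) + d = stA w i + 2 * stE w (i + d) i := by
  unfold stA stE stJ; push_cast; omega

theorem stB_add (w i d : ℕ) : stB w (i + d) + d = stB w i + 3 * stE w (i + d) i := by
  unfold stB stE stJ; push_cast; omega

theorem stE_add (w : ℕ) {l L : ℕ} (h : l ≤ L) : stE w L 0 = stE w l 0 + stE w L l := by
  unfold stE stJ; push_cast; omega

theorem stA_le {w i L : ℕ} (hw : w ≤ L) (hi : i ≤ L) : stA w i ≤ L + 2 := by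
  unfold stA stJ; omega

theorem stB_le {w i L : ℕ} (hw : w ≤ L) (hi : i ≤ L) : stB w i ≤ L + 2 := by
  unfold stB stJ; omega

theorem st_ab (w i : ℕ) {α β : ℝ} (hab : 2 * α + 3 * β = 1) :
    stA w i * α + stB w i * β ≤ 1 + α / 3 * ((w - i : ℕ) : ℝ) + β / 2 * ((i - w : ℕ) : ℝ) := by
  have hA : ((stA w i : ℕ) : ℤ) = (w : ℤ) - i + 2 * stJ w i := by unfold stA stJ; omega
  have hB : ((stB w i : ℕ) : ℤ) = (w : ℤ) - i + 3 * stJ w i := by unfold stB stJ; omega
  have hA' : (stA w i : ℝ) = (w : ℝ) - i + 2 * (stJ w i : ℝ) := by exact_mod_cast hA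
  have hB' : (stB w i : ℝ) = (w : ℝ) - i + 3 * (stJ w i : ℝ) := by exact_mod_cast hB
  rw [hA', hB']
  rcases le_total i w with h | h
  · have h1 : 3 * stJ w i ≤ 3 - ((w : ℤ) - i) := by unfold stJ; omega
    have h2 : 3 * (stJ w i : ℝ) ≤ 3 - ((w : ℝ) - i) := by exact_mod_cast h1
    rw [Nat.cast_sub h, Nat.sub_eq_zero_of_le h]
    have e : ((w : ℝ) - i + 2 * (stJ w i : ℝ)) * α + ((w : ℝ) - i + 3 * (stJ w i : ℝ)) * β
        = α / 3 * ((w : ℝ) - i) + (((w : ℝ) - i) / 3 + stJ w i) := by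
      linear_combination (((w : ℝ) - i) / 3 + stJ w i) * hab
    rw [e]; push_cast; linarith
  · have h1 : 2 * stJ w i ≤ 2 - ((w : ℤ) - i) := by unfold stJ; omega
    have h2 : 2 * (stJ w i : ℝ) ≤ 2 - ((w : ℝ) - i) := by exact_mod_cast h1
    rw [Nat.cast_sub h, Nat.sub_eq_zero_of_le h]
    have e : ((w : ℝ) - i + 2 * (stJ w i : ℝ)) * α + ((w : ℝ) - i + 3 * (stJ w i : ℝ)) * β
        = β / 2 * ((i : ℝ) - w) + (((w : ℝ) - i) / 2 + stJ w i) := by
      linear_combination (((w : ℝ) - i) / 2 + stJ w i) * hab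
    rw [e]; push_cast; linarith

theorem st_sum1 (w n : ℕ) :
    2 * ∑ l ∈ Finset.range n, (w - l) + (w - n) * (w - n + 1) = w * (w + 1) := by
  induction n with
  | zero => simp
  | succ n ih =>
    rw [Finset.sum_range_succ, ← ih]
    rcases le_or_gt w n with h | h
    · rw [Nat.sub_eq_zero_of_le h, Nat.sub_eq_zero_of_le (by omega : w ≤ n + 1)]; simp
    · obtain ⟨c, hc⟩ : ∃ c, w - n = c + 1 := ⟨w - n - 1, by omega⟩
      rw [hc, show w - (n + 1) = c by omega]; ring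

theorem st_sum2 (w n : ℕ) :
    2 * ∑ l ∈ Finset.range (n + 1), (l - w) = (n - w) * (n - w + 1) := by
  induction n with
  | zero => simp
  | succ n ih =>
    rw [Finset.sum_range_succ, mul_add, ih]
    rcases le_or_gt w n with h | h
    · rw [show n + 1 - w = n - w + 1 by omega]; ring
    · rw [Nat.sub_eq_zero_of_le h.le, Nat.sub_eq_zero_of_le (by omega : n + 1 ≤ w)]

theorem st_sum {w L : ℕ} {α β ε : ℝ} (hα : 0 ≤ α) (hβ : 0 ≤ β) (hab : 2 * α + 3 * β = 1)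
    (hL : 10 ≤ ε * L) (hw1 : (w : ℝ) ≤ 3 * β * L) (hw2 : 3 * β * L < w + 1) (hwL : w ≤ L) :
    ∑ l ∈ Finset.range (L + 1), (stA w l * α + stB w l * β - l * (α * β + ε)) ≤ -1 := by
  have s1 : 2 * ∑ l ∈ Finset.range (L + 1), ((w - l : ℕ) : ℝ) ≤ w * (w + 1) := by
    have h := st_sum1 w (L + 1)
    have h2 : 2 * ∑ l ∈ Finset.range (L + 1), (w - l) ≤ w * (w + 1) := by omega
    exact_mod_cast h2
  have s2 : 2 * ∑ l ∈ Finset.range (L + 1), ((l - w : ℕ) : ℝ)
      = ((L : ℝ) - w) * ((L : ℝ) - w + 1) := by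
    rw [← Nat.cast_sub hwL]
    exact_mod_cast st_sum2 w L
  have s3 : 2 * ∑ l ∈ Finset.range (L + 1), (l : ℝ) = L * (L + 1) := by
    have h := st_sum2 0 L
    simp only [Nat.sub_zero] at h
    have h2 := congrArg (fun z : ℕ => (z : ℝ)) h
    push_cast at h2
    exact h2
  have h1 : ∑ l ∈ Finset.range (L + 1), (stA w l * α + stB w l * β - l * (α * β + ε))
      ≤ ∑ l ∈ Finset.range (L + 1), (1 + α / 3 * ((w - l : ℕ) : ℝ) + β / 2 * ((l - w : ℕ) : ℝ)
        - l * (α * β + ε)) :=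
    Finset.sum_le_sum fun l _ => sub_le_sub_right (st_ab w l hab) _
  refine h1.trans ?_
  rw [Finset.sum_sub_distrib, Finset.sum_add_distrib, Finset.sum_add_distrib, ← Finset.mul_sum,
    ← Finset.mul_sum, ← Finset.sum_mul]
  simp only [Finset.sum_const, Finset.card_range, nsmul_eq_mul, mul_one]
  push_cast
  have hL0 : (0 : ℝ) ≤ L := Nat.cast_nonneg L
  have hw0 : (0 : ℝ) ≤ w := Nat.cast_nonneg w
  have hwL' : (w : ℝ) ≤ L := by exact_mod_cast hwL
  have t1 : (w : ℝ) * (w + 1) ≤ (3 * β * L) * (3 * β * L + 1) :=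
    mul_le_mul hw1 (by linarith) (by linarith) (by positivity)
  have hv : (L : ℝ) - w ≤ 2 * α * L + 1 := by
    have : (L : ℝ) = 2 * α * L + 3 * β * L := by linear_combination (-(L : ℝ)) * hab
    linarith
  have t2 : ((L : ℝ) - w) * ((L : ℝ) - w + 1) ≤ (2 * α * L + 1) * (2 * α * L + 2) :=
    mul_le_mul hv (by linarith) (by linarith) (by positivity)
  have u1 := mul_le_mul_of_nonneg_left (s1.trans t1) hα
  have u2 := mul_le_mul_of_nonneg_left (s2.le.trans t2) hβ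
  have u3 : (∑ l ∈ Finset.range (L + 1), (l : ℝ)) * (α * β + ε)
      = L * (L + 1) / 2 * (α * β + ε) := by rw [← s3]; ring
  have u4 : α * β * L ^ 2 * (2 * α + 3 * β) = α * β * L ^ 2 := by rw [hab, mul_one]
  have u5 : α * β ≤ 1 / 6 := by nlinarith
  have u6 := mul_le_mul_of_nonneg_right u5 hL0
  have u7 := mul_le_mul_of_nonneg_right hL (by linarith : (0 : ℝ) ≤ L + 1)
  rw [u3]
  have u8 : 0 ≤ α * β * L := by positivity
  linarith

theorem st_key (w : ℕ) {L i l : ℕ} (x Y M2 : ℕ) {M1 : ℕ} (hM : M1 ≠ 0) (hi : i ≤ l) (hl : l ≤ L) :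
    (stPhi w L x Y M1 M2 l : ℝ) * (x * Y * M2 / M1 : ℝ) ^ (l - i)
      = ((x : ℝ) ^ 2 * Y ^ 3) ^ stE w l i * stPhi w L x Y M1 M2 i := by
  obtain ⟨d, rfl⟩ := Nat.exists_eq_add_of_le hi
  obtain ⟨r, rfl⟩ := Nat.exists_eq_add_of_le hl
  have hM' : (M1 : ℝ) ≠ 0 := by exact_mod_cast hM
  have h1 : (x : ℝ) ^ stA w (i + d) * x ^ d = x ^ stA w i * (x ^ 2) ^ stE w (i + d) i := by
    rw [← pow_add, stA_add, pow_add, pow_mul]
  have h2 : (Y : ℝ) ^ stB w (i + d) * Y ^ d = Y ^ stB w i * (Y ^ 3) ^ stE w (i + d) i := by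
    rw [← pow_add, stB_add, pow_add, pow_mul]
  unfold stPhi stM
  rw [show i + d - i = d by omega, show i + d + r - (i + d) = r by omega,
    show i + d + r - i = d + r by omega]
  push_cast
  calc _ = ((x : ℝ) ^ stA w (i + d) * x ^ d) * ((Y : ℝ) ^ stB w (i + d) * Y ^ d)
        * (M1 ^ i * M2 ^ (d + r)) := by
        rw [div_pow]; field_simp; ring
    _ = _ := by rw [h1, h2, mul_pow]; ring

theorem st_binom (w : ℕ) {L l : ℕ} (x Y M2 : ℕ) {M1 : ℕ} (hM : M1 ≠ 0) (hl : l ≤ L) (θ : ℝ) :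
    (stPhi w L x Y M1 M2 l : ℝ) + ∑ i ∈ Finset.range l, (l.choose i * (-θ⁻¹) ^ (l - i)
        * ((x : ℝ) ^ 2 * Y ^ 3) ^ stE w l i) * stPhi w L x Y M1 M2 i
      = stPhi w L x Y M1 M2 l * (1 - (x * Y * M2 / M1 : ℝ) / θ) ^ l := by
  rw [sub_eq_add_neg, add_pow, Finset.sum_range_succ, mul_add, Finset.mul_sum, add_comm]
  congr 1
  · refine Finset.sum_congr rfl fun i hi => ?_
    rw [mul_assoc, ← st_key w x Y M2 hM (Finset.mem_range.1 hi).le hl,
      show -((x * Y * M2 / M1 : ℝ) / θ) = -θ⁻¹ * (x * Y * M2 / M1 : ℝ) by ring, mul_pow]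
    ring
  · simp

theorem st_pow_mem {S : Finset ℕ} {m : ℕ} (h : m ∈ Nat.factoredNumbers S) (i : ℕ) :
    m ^ i ∈ Nat.factoredNumbers S := by
  induction i with
  | zero => simp [Nat.mem_factoredNumbers]
  | succ i ih => rw [pow_succ]; exact Nat.mul_mem_factoredNumbers ih h

theorem st_sq {n v : ℝ} (hn : 2 ≤ n) (h : v ≤ n + 1) : v ≤ n ^ 2 := by nlinarith

theorem main_step (S : Finset ℕ) (σ : ℤ) (hσ : σ = 1 ∨ σ = -1) (θ : ℝ) (hθ : IsAlgebraic ℚ θ)
    (hθ0 : 0 < θ) (A ε : ℝ) (hε : 0 < ε) (U : Ultrafilter ℕ) (x Y W M1 M2 : ℕ → ℕ)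
    (hn : Tendsto (fun k => x k ^ 2 * Y k ^ 3) U atTop)
    (h : ∀ᶠ k in U, 0 < x k ∧ 0 < Y k ∧ (W k : ℤ) = x k ^ 2 * Y k ^ 3 + σ ∧
      W k ∈ Nat.factoredNumbers S ∧ M1 k ∈ Nat.factoredNumbers S ∧
      M2 k ∈ Nat.factoredNumbers S ∧
      log (M1 k) ≤ A * log (x k ^ 2 * Y k ^ 3) ∧ log (M2 k) ≤ A * log (x k ^ 2 * Y k ^ 3) ∧
      |(x k * Y k * M2 k / M1 k : ℝ) / θ - 1| ≤
        exp (-(log (x k) * log (Y k) / log (x k ^ 2 * Y k ^ 3)) - ε * log (x k ^ 2 * Y k ^ 3))) :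
    ∃ (d : ℕ) (H : ℕ → ℚ[X]), (∃ i ≤ d, H i ≠ 0) ∧ ∀ᶠ k in U,
      ∑ i ∈ Finset.range (d + 1), aeval (W k : ℝ) (H i) * (x k * Y k * M2 k / M1 k : ℝ) ^ i = 0 := by
  obtain ⟨L, hL⟩ := exists_nat_ge (10 / ε)
  have hL' : 10 ≤ ε * L := by rwa [div_le_iff₀ hε, mul_comm] at hL
  set q : ℕ → ℝ := fun k => log (x k ^ 2 * Y k ^ 3) with hqdef
  have hq : Tendsto q U atTop := by
    have h1 := tendsto_log_atTop.comp (tendsto_natCast_atTop_atTop.comp hn)
    refine h1.congr fun k => ?_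
    simp [hqdef]
  have hn2 : ∀ᶠ k in U, 2 ≤ x k ^ 2 * Y k ^ 3 := hn.eventually (eventually_ge_atTop 2)
  have hbase : ∀ᶠ k in U, 0 < q k ∧ 0 ≤ log (x k) ∧ 0 ≤ log (Y k) ∧
      2 * log (x k) + 3 * log (Y k) = q k := by
    filter_upwards [h, hq.eventually (eventually_gt_atTop 0)] with k hk hk0
    have hx : (0 : ℝ) < x k := by exact_mod_cast hk.1
    have hY : (0 : ℝ) < Y k := by exact_mod_cast hk.2.1
    refine ⟨hk0, log_natCast_nonneg _, log_natCast_nonneg _, ?_⟩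
    simp only [hqdef]
    rw [log_mul (by positivity) (by positivity), log_pow, log_pow]
    push_cast
    ring
  obtain ⟨w, hw⟩ : ∃ w : Fin (L + 1), ∀ᶠ k in U, ⌊3 * (log (Y k) / q k) * L⌋₊ = w := by
    rw [← Ultrafilter.eventually_exists_iff]
    filter_upwards [hbase] with k hk
    refine ⟨⟨⌊3 * (log (Y k) / q k) * L⌋₊, Nat.lt_succ_of_le (Nat.floor_le_of_le ?_)⟩, rfl⟩
    have h1 : 3 * (log (Y k) / q k) ≤ 1 := by
      rw [← mul_div_assoc, div_le_one hk.1]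
      linarith [hk.2.1, hk.2.2.2]
    exact mul_le_of_le_one_left (Nat.cast_nonneg L) h1
  have hwL : (w : ℕ) ≤ L := Nat.lt_succ_iff.1 w.2
  let θ' : RA := ⟨θ, mem_algebraicClosure_iff.2 hθ⟩
  have hWn : ∀ᶠ k in U, (W k : ℝ) - σ = (x k : ℝ) ^ 2 * (Y k : ℝ) ^ 3 := by
    filter_upwards [h] with k hk
    have h1 : ((W k : ℤ) : ℝ) = ((x k ^ 2 * Y k ^ 3 + σ : ℤ) : ℝ) := by rw [hk.2.2.1]
    push_cast at h1
    linarith
  refine Exists.elim (gain S L 0
    (fun l i => C ((l.choose i : RA) * (-θ'⁻¹) ^ (l - i)) * (X - C (σ : RA)) ^ stE w l i)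
    U q hq (2 + L * |A| + 2 * (L + 2) + L * (1 + ε)) 1 one_pos W
    (fun k l => stPhi w L (x k) (Y k) (M1 k) (M2 k) l) (fun k l => stM L (M1 k) (M2 k) l)
    (fun k l => (stA w l * (log (x k) / q k) + stB w l * (log (Y k) / q k)
      - l * (log (x k) / q k * (log (Y k) / q k) + ε)) * q k) ?_) fun P hPr => ?_
  swap
  · obtain ⟨⟨l, hl, hPl⟩, hrel⟩ := hPr
    refine ⟨L, fun i => P (L - i) * (X - C (σ : ℚ)) ^ stE w (L - i) 0, ⟨L - l, Nat.sub_le _ _, ?_⟩,
      ?_⟩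
    · simp only [Nat.sub_sub_self hl]
      exact mul_ne_zero hPl (pow_ne_zero _ (X_sub_C_ne_zero _))
    filter_upwards [h, hrel, hWn] with k hk hr hW
    have hM1 : M1 k ≠ 0 := Nat.ne_zero_of_mem_factoredNumbers hk.2.2.2.2.1
    have hM2 : M2 k ≠ 0 := Nat.ne_zero_of_mem_factoredNumbers hk.2.2.2.2.2.1
    have hΦ : (stPhi w L (x k) (Y k) (M1 k) (M2 k) L : ℝ) ≠ 0 := by
      have : stPhi w L (x k) (Y k) (M1 k) (M2 k) L ≠ 0 := by
        unfold stPhi stM
        have h1 := hk.1.ne'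
        have h2 := hk.2.1.ne'
        positivity
      exact_mod_cast this
    have hev : ∀ p : ℚ[X], aeval (W k : ℝ) p = ((p.eval (W k : ℚ) : ℚ) : ℝ) := fun p => by
      have := aeval_algebraMap_apply_eq_algebraMap_eval (R := ℚ) (A := ℝ) (W k : ℚ) p
      simpa using this
    have hr' : ∑ l ∈ Finset.range (L + 1), aeval (W k : ℝ) (P l)
        * (stPhi w L (x k) (Y k) (M1 k) (M2 k) l : ℝ) = 0 := by
      have h1 := congrArg (fun z : ℚ => (z : ℝ)) hr
      simp only [hev]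
      push_cast at h1
      exact h1
    refine mul_left_cancel₀ hΦ ?_
    rw [mul_zero, ← Finset.sum_range_reflect, Finset.mul_sum,
      ← mul_zero (((x k : ℝ) ^ 2 * (Y k : ℝ) ^ 3) ^ stE w L 0), ← hr', Finset.mul_sum]
    refine Finset.sum_congr rfl fun i hi => ?_
    have hi' : i ≤ L := Nat.lt_succ_iff.1 (Finset.mem_range.1 hi)
    rw [show L + 1 - 1 - i = L - i by omega, Nat.sub_sub_self hi', stE_add w hi', pow_add]
    have hk1 := st_key w (x k) (Y k) (M2 k) hM1 hi' le_rfl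
    simp only [map_mul, map_pow, map_sub, aeval_X, aeval_C, map_intCast, hW]
    linear_combination (aeval (W k : ℝ) (P i)
      * ((x k : ℝ) ^ 2 * (Y k : ℝ) ^ 3) ^ stE w i 0) * hk1
  filter_upwards [h, hbase, hw, hWn, hn2] with k hk hb hwk hW hk2
  obtain ⟨hx, hY, hWk, hWS, hM1S, hM2S, hlM1, hlM2, happ⟩ := hk
  obtain ⟨hq0, hlx, hlY, hsum⟩ := hb
  have hx' : (0 : ℝ) < x k := by exact_mod_cast hx
  have hY' : (0 : ℝ) < Y k := by exact_mod_cast hY
  have hM1 : M1 k ≠ 0 := Nat.ne_zero_of_mem_factoredNumbers hM1S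
  have hM2 : M2 k ≠ 0 := Nat.ne_zero_of_mem_factoredNumbers hM2S
  have hM1' : (0 : ℝ) < M1 k := by exact_mod_cast Nat.pos_of_ne_zero hM1
  have hM2' : (0 : ℝ) < M2 k := by exact_mod_cast Nat.pos_of_ne_zero hM2
  have hqk : log ((x k : ℝ) ^ 2 * (Y k : ℝ) ^ 3) = q k := rfl
  rw [hqk] at hlM1 hlM2 happ
  have hL0 : (0 : ℝ) ≤ L := Nat.cast_nonneg L
  have hA1 : 0 ≤ L * |A| * q k := by positivity
  have hA2 : 0 ≤ 2 * ((L : ℝ) + 2) * q k := by positivity
  have hA3 : 0 ≤ L * (1 + ε) * q k := by positivity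
  have hα : 0 ≤ log (x k) / q k := div_nonneg hlx hq0.le
  have hβ : 0 ≤ log (Y k) / q k := div_nonneg hlY hq0.le
  have hab : 2 * (log (x k) / q k) + 3 * (log (Y k) / q k) = 1 := by
    field_simp
    linarith
  refine ⟨hWS, ?_, fun l hl => ?_, ?_⟩
  · have hW0 : (0 : ℝ) < W k := by
      exact_mod_cast Nat.pos_of_ne_zero (Nat.ne_zero_of_mem_factoredNumbers hWS)
    have hn' : (2 : ℝ) ≤ (x k : ℝ) ^ 2 * (Y k : ℝ) ^ 3 := by exact_mod_cast hk2
    have hσ' : (σ : ℝ) ≤ 1 := by rcases hσ with rfl | rfl <;> norm_num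
    have h1 : (W k : ℝ) ≤ ((x k : ℝ) ^ 2 * (Y k : ℝ) ^ 3) ^ 2 := st_sq hn' (by linarith)
    have h2 := log_le_log hW0 h1
    rw [log_pow, hqk] at h2
    push_cast at h2
    linarith
  · have hl' : (l : ℝ) ≤ L := by exact_mod_cast hl
    have hl0 : (0 : ℝ) ≤ l := Nat.cast_nonneg l
    have hm0 : (0 : ℝ) < stM L (M1 k) (M2 k) l := by
      unfold stM; push_cast; positivity
    have hlm : log (stM L (M1 k) (M2 k) l) ≤ L * |A| * q k := by
      unfold stM
      push_cast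
      rw [log_mul (by positivity) (by positivity), log_pow, log_pow, Nat.cast_sub hl]
      have h0 : A * q k ≤ |A| * q k := mul_le_mul_of_nonneg_right (le_abs_self A) hq0.le
      have h1 := mul_le_mul_of_nonneg_left (hlM1.trans h0) hl0
      have h2 := mul_le_mul_of_nonneg_left (hlM2.trans h0) (sub_nonneg.2 hl')
      linarith
    have ha : (stA w l : ℝ) ≤ L + 2 := by exact_mod_cast stA_le hwL hl
    have hb : (stB w l : ℝ) ≤ L + 2 := by exact_mod_cast stB_le hwL hl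
    have hE0 : 0 ≤ stA w l * log (x k) + stB w l * log (Y k) := by positivity
    have hE1 : stA w l * log (x k) + stB w l * log (Y k) ≤ 2 * ((L : ℝ) + 2) * q k := by
      have h1 := mul_le_mul ha (show log (x k) ≤ q k by linarith) hlx (by positivity)
      have h2 := mul_le_mul hb (show log (Y k) ≤ q k by linarith) hlY (by positivity)
      linarith
    have hΦ : (stPhi w L (x k) (Y k) (M1 k) (M2 k) l : ℝ)
        = stM L (M1 k) (M2 k) l * exp (stA w l * log (x k) + stB w l * log (Y k)) := by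
      unfold stPhi
      rw [exp_add, exp_nat_mul, exp_nat_mul, exp_log hx', exp_log hY']
      push_cast
      ring
    have hρ : (stA w l * (log (x k) / q k) + stB w l * (log (Y k) / q k)
        - l * (log (x k) / q k * (log (Y k) / q k) + ε)) * q k
        = stA w l * log (x k) + stB w l * log (Y k)
          + l * (-(log (x k) * log (Y k) / q k) - ε * q k) := by
      field_simp
      ring
    have hγ0 : 0 ≤ log (x k) * log (Y k) / q k := by positivity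
    have hγ1 : log (x k) * log (Y k) / q k ≤ q k := by
      rw [div_le_iff₀ hq0]
      exact mul_le_mul (by linarith) (by linarith) hlY hq0.le
    refine ⟨Nat.mul_mem_factoredNumbers (st_pow_mem hM1S _) (st_pow_mem hM2S _),
      Int.natCast_dvd_natCast.2 (Dvd.intro_left _ rfl), by linarith, ?_, ?_, ?_⟩
    · rw [Int.cast_natCast, Nat.abs_cast, hΦ, ← exp_log hm0, ← exp_add, exp_le_exp]
      linarith
    · rw [hρ, abs_le]
      have h1 : 0 ≤ log (x k) * log (Y k) / q k + ε * q k := by positivity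
      have h2 : log (x k) * log (Y k) / q k + ε * q k ≤ (1 + ε) * q k := by linarith
      have h3 := mul_le_mul hl' h2 h1 hL0
      have h4 := mul_nonneg hl0 h1
      constructor <;> linarith
    · have hΛ : ∀ i, aeval (W k : ℝ)
          (C ((l.choose i : RA) * (-θ'⁻¹) ^ (l - i)) * (X - C (σ : RA)) ^ stE w l i)
          = l.choose i * (-θ⁻¹) ^ (l - i) * ((x k : ℝ) ^ 2 * (Y k : ℝ) ^ 3) ^ stE w l i := by
        intro i
        simp only [map_mul, map_pow, map_sub, map_neg, aeval_X, aeval_C, map_intCast, map_natCast,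
          map_inv₀, hW]
        rfl
      simp only [hΛ, pow_zero, one_mul, Int.cast_natCast]
      rw [st_binom w (x k) (Y k) (M2 k) hM1 hl θ, hρ, abs_mul, Nat.abs_cast, hΦ, abs_pow,
        abs_sub_comm, exp_add _ (l * _), exp_nat_mul, mul_assoc]
      gcongr
  · rw [← Finset.sum_mul]
    refine mul_le_mul_of_nonneg_right (st_sum hα hβ hab hL' ?_ ?_ hwL) hq0.le
    · rw [← hwk]
      exact Nat.floor_le (by positivity)
    · rw [← hwk]
      exact Nat.lt_floor_add_one _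

end Pool.Agent.Lib.MP_6aa000_nt
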